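import Pool.Agent.Y375.SP.Main
import Pool.Agent.Y184.SP.Base4

set_option autoImplicit false

/-!
# There is no semipositive current with potentials of class `C¹` (project SP of helper184)
-/

open Set Topology Filter
open scoped ContDiff

namespace Pool.Agent.Y375.SP.C1

open Pool.Agent.Y184.SP Pool.Agent.Y375.SP

/-- local extension of class `C¹` -/
def X1 (u : E → ℝ) (j : Fin 5) (z : E) : Prop :=
  ∃ f : E → ℝ, C1At f z ∧ ∀ᶠ z' in 𝓝 z, tr j z' ∈ W → f z' = u (tr j z')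

theorem Fx_local {u : E → ℝ} {j : Fin 5} (hd : Dense {z | tr j z ∈ W}) {z : E} {f : E → ℝ}
    (hf : C1At f z) (hfu : ∀ᶠ z' in 𝓝 z, tr j z' ∈ W → f z' = u (tr j z')) :
    Fx u j =ᶠ[𝓝 z] f := by
  filter_upwards [hf, eventually_eventually_nhds.2 hfu] with z' h1 h2
  refine extendFrom_eq (hd z') ?_
  have h3 : Tendsto f (𝓝[{z | tr j z ∈ W}] z') (𝓝 (f z')) :=
    h1.continuousAt.tendsto.mono_left nhdsWithin_le_nhds
  refine h3.congr' ?_
  rw [Filter.EventuallyEq, eventually_nhdsWithin_iff]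
  exact h2

theorem Fx_C1 {u : E → ℝ} {j : Fin 5} (hd : Dense {z | tr j z ∈ W}) {z : E}
    (hu : X1 u j z) : C1At (Fx u j) z := by
  obtain ⟨f, hf, hfu⟩ := hu
  have h := Fx_local hd hf hfu
  have h' := eventually_eventually_nhds.2 h
  unfold C1At at hf ⊢
  filter_upwards [hf, h'] with z' h1 h2
  exact h1.congr_of_eventuallyEq h2

theorem C1_at {f : E → ℝ} {z : E} (h : C1At f z) : ContDiffAt ℝ 1 f z := h.self_of_nhds

theorem C1_add {f g : E → ℝ} {z : E} (hf : C1At f z) (hg : C1At g z) :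
    C1At (fun t => f t + g t) z := by
  unfold C1At at hf hg ⊢
  filter_upwards [hf, hg] with z' h1 h2
  exact h1.add h2

theorem Fx_tendsto {u : E → ℝ} {j : Fin 5} (hd : Dense {z | tr j z ∈ W}) {z : E}
    (hu : X1 u j z) :
    Tendsto (fun z => u (tr j z)) (𝓝[{z | tr j z ∈ W}] z) (𝓝 (Fx u j z)) := by
  obtain ⟨f, hf, h'⟩ := hu
  have h := Fx_local hd hf h'
  rw [h.self_of_nhds]
  have h3 : Tendsto f (𝓝[{z | tr j z ∈ W}] z) (𝓝 (f z)) :=
    (C1_at hf).continuousAt.tendsto.mono_left nhdsWithin_le_nhds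
  refine h3.congr' ?_
  rw [Filter.EventuallyEq, eventually_nhdsWithin_iff]
  exact h'

theorem Fx_comp {u : E → ℝ} {i j : Fin 5} (hdi : Dense {z | tr i z ∈ W})
    (hdj : Dense {z | tr j z ∈ W}) {σ : E → E} {z : E} (hi : X1 u i z) (hj : X1 u j (σ z))
    (hσ : ContinuousAt σ z)
    (h : ∀ᶠ t in 𝓝 z, tr i t ∈ W → tr j (σ t) ∈ W ∧ u (tr j (σ t)) = u (tr i t)) :
    Fx u i z = Fx u j (σ z) := by
  have h1 := Fx_tendsto hdi hi
  have h2 := Fx_tendsto hdj hj
  have h3 : Tendsto σ (𝓝[{z | tr i z ∈ W}] z) (𝓝[{z | tr j z ∈ W}] (σ z)) := by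
    rw [tendsto_nhdsWithin_iff]
    refine ⟨hσ.tendsto.mono_left nhdsWithin_le_nhds, ?_⟩
    rw [eventually_nhdsWithin_iff]
    filter_upwards [h] with t ht ht'
    exact (ht ht').1
  have h4 := h2.comp h3
  have h5 : (𝓝[{z | tr i z ∈ W}] z).NeBot := mem_closure_iff_nhdsWithin_neBot.1 (hdi z)
  refine tendsto_nhds_unique (h1.congr' ?_) h4
  rw [Filter.EventuallyEq, eventually_nhdsWithin_iff]
  filter_upwards [h] with t ht ht'
  exact (ht ht').2.symm

/-- all local extensions -/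
def XX (u : E → ℝ) : Prop := ∀ j, ∀ z ∈ V j, X1 u j z

theorem x0 {u : E → ℝ} (hu : XX u) {z : E} (hz : z.1 ∉ Lam) : X1 u 0 z := hu 0 z (Or.inl hz)

theorem off_nhds {z : E} (hz : z.1 ∉ Lam) : ∀ᶠ t in 𝓝 z, t.1 ∉ Lam :=
  (Lam_closed.isOpen_compl.preimage continuous_fst).mem_nhds hz

theorem Phi_C1 {z : E} (hz : z.1 ∉ Lam) : C1At Phi z := by
  unfold C1At
  filter_upwards [off_nhds hz] with t ht
  exact (cd2 (Phi_smooth ht)).of_le (by norm_num)

theorem Th_C1 (z : E) : C1At Th z :=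
  Eventually.of_forall fun t => (cd2 (Th_smooth t)).of_le (by norm_num)

theorem ph_C1 {u : E → ℝ} (hu : XX u) {z : E} (hz : z.1 ∉ Lam) : C1At (ph u) z :=
  C1_add (Phi_C1 hz) (Fx_C1 dense0 (x0 hu hz))

theorem ps_C1 {u : E → ℝ} (hu : XX u) {z : E} (hz : z ∈ V 3) : C1At (ps u) z :=
  C1_add (Fx_C1 dense3 (hu 3 z hz)) (Th_C1 z)

/-- the relation of the two functions -/
theorem rel {u : E → ℝ} (hu : XX u) {z : E} (hx : z.1 ≠ 0) (hx8 : ‖z.1‖ < 1 / 8)
    (hy : z.2 - z.1 ≠ 0) (hy8 : ‖z.2 - z.1‖ < 1 / 8) :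
    ph u z = ps u (sg z) + Real.log (‖(z.2 - z.1) / z.1‖ ^ 2) := by
  unfold ph ps
  rw [Phi3 hx hx8 hy]
  have e1 : (sg z).1 * (sg z).2 = z.1 := by
    unfold sg
    simp only
    field_simp
  have e2 : (sg z).1 * (sg z).2 ^ 2 = z.2 - z.1 := by
    unfold sg
    simp only
    field_simp
  have hV : sg z ∈ V 3 := by
    rw [V3_mem, e1, e2]
    exact ⟨hx8, hy8⟩
  have hcont : ContinuousAt sg z := by
    unfold sg
    have h1 : ContinuousAt (fun z : E => z.1) z := continuous_fst.continuousAt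
    have h2 : ContinuousAt (fun z : E => z.2 - z.1) z := by fun_prop
    exact ((h1.pow 2).div h2 hy).prodMk (h2.div h1 hx)
  have hev : ∀ᶠ t in 𝓝 z, t.1 ≠ 0 ∧ t.2 - t.1 ≠ 0 := by
    have h1 : ContinuousAt (fun z : E => z.1) z := continuous_fst.continuousAt
    have h2 : ContinuousAt (fun z : E => z.2 - z.1) z := by fun_prop
    exact (h1.eventually_ne hx).and (h2.eventually_ne hy)
  have hF : Fx u 0 z = Fx u 3 (sg z) := by
    refine Fx_comp dense0 dense3 (x0 hu (small_notMem hx (by linarith))) (hu 3 _ hV) hcont ?_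
    filter_upwards [hev] with t ht hW
    have h3 : tr 3 (sg t) = t := by
      have hx' := ht.1
      have hy' := ht.2
      show ((sg t).1 * (sg t).2, (sg t).1 * (sg t).2 ^ 2 + (sg t).1 * (sg t).2) = t
      apply Prod.ext
      · unfold sg
        simp only
        field_simp
      · unfold sg
        simp only
        field_simp
        ring
    have h4 : tr 0 t = t := rfl
    rw [h3]
    rw [h4] at hW ⊢
    exact ⟨hW, rfl⟩
  rw [hF]
  ring

theorem vv_near {u : E → ℝ} (hu : XX u) {x : ℂ} (h : ‖x‖ < 1 / 8) :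
    vv u x = ps u (-x, -1) := by
  unfold vv
  by_cases hx : x = 0
  · subst hx
    rw [if_pos Lam_zero, neg_zero]
  · rw [if_neg (small_notMem hx (by linarith))]
    have h1 := rel hu (z := ((x, 0) : E)) hx h (by simpa using hx) (by simpa using h)
    have h2 : sg ((x, 0) : E) = (-x, -1) := by
      unfold sg
      apply Prod.ext
      · simp only
        field_simp
        ring
      · simp only
        field_simp
        ring
    have h3 : ((0 : ℂ) - x) / x = -1 := by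
      field_simp
      ring
    rw [h1, h2]
    simp only [h3]
    simp

theorem ph_per {u : E → ℝ} (hu : XX u) (hper : Per u) {l : ℂ} (hl : l ∈ Lam) {z : E}
    (hz : z.1 ∉ Lam) : ph u (z + (l, 0)) = ph u z := by
  unfold ph
  rw [Phi_per hl]
  congr 1
  symm
  have hz' : (z + (l, 0)).1 ∉ Lam := fun h => hz ((Lam_add_iff hl).1 h)
  refine Fx_comp dense0 dense0 (σ := fun t => t + (l, 0)) (x0 hu hz) (x0 hu hz')
    (by fun_prop) ?_
  refine Eventually.of_forall fun t ht => ?_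
  have ht1 : t ∈ W := ht
  refine ⟨?_, ?_⟩
  · show t + (l, 0) ∈ W
    refine ⟨fun h => ht1.1 ((Lam_add_iff hl).1 h), ?_⟩
    show t.2 + 0 ≠ 0
    rw [add_zero]
    exact ht1.2
  · show u (t + (l, 0)) = u t
    have := hper t.1 t.2 l hl
    have e : t + ((l, 0) : E) = (t.1 + l, t.2) := by
      apply Prod.ext
      · rfl
      · show t.2 + 0 = t.2
        rw [add_zero]
    rw [e]
    exact this

theorem vv_per {u : E → ℝ} (hu : XX u) (hper : Per u) {l : ℂ} (hl : l ∈ Lam) (x : ℂ) :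
    vv u (x + l) = vv u x := by
  unfold vv
  by_cases hx : x ∈ Lam
  · rw [if_pos hx, if_pos (Lam_add hx hl)]
  · rw [if_neg hx, if_neg (fun h => hx ((Lam_add_iff hl).1 h))]
    have := ph_per hu hper hl (z := ((x, 0) : E)) hx
    have e : ((x, 0) : E) + (l, 0) = (x + l, 0) := by simp
    rwa [e] at this

theorem vv_on {u : E → ℝ} (hu : XX u) (hper : Per u) {x : ℂ} (hx : x ∈ Lam) :
    vv u =ᶠ[𝓝 x] fun t => ps u (-(t - x), -1) := by
  have h1 : ∀ᶠ t in 𝓝 x, ‖t - x‖ < 1 / 8 := by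
    have hc : ContinuousAt (fun t : ℂ => ‖t - x‖) x := by fun_prop
    exact hc.eventually_lt_const (by simp)
  filter_upwards [h1] with t ht
  rw [← vv_near hu ht]
  have := vv_per hu hper hx (t - x)
  rwa [sub_add_cancel] at this

theorem vv_cont {u : E → ℝ} (hu : XX u) (hper : Per u) : Continuous (vv u) := by
  rw [continuous_iff_continuousAt]
  intro x
  by_cases hx : x ∈ Lam
  · refine ContinuousAt.congr ?_ (vv_on hu hper hx).symm
    exact ContinuousAt.comp (g := ps u) (f := fun t : ℂ => ((-(t - x), -1) : E))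
      (C1_at (ps_C1 hu (mem3 (by simp)))).continuousAt (by fun_prop)
  · refine ContinuousAt.congr ?_ (vv_off hx).symm
    exact ContinuousAt.comp (g := ph u) (f := fun t : ℂ => ((t, 0) : E))
      (C1_at (ph_C1 hu hx)).continuousAt (by fun_prop)

/-! ### Submean values -/

theorem SubM_congr {φ φ' : E → ℝ} {z0 : E} (h : φ =ᶠ[𝓝 z0] φ') (hs : SubM φ z0) :
    SubM φ' z0 := by
  obtain ⟨r, hr, hs⟩ := hs
  obtain ⟨ε, hε, hball⟩ := Metric.eventually_nhds_iff.1 h
  refine ⟨min r (ε / 2), lt_min hr (by positivity), fun z v hz hv => ?_⟩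
  have hz1 := hz.trans_le (min_le_left _ _)
  have hz2 := hz.trans_le (min_le_right _ _)
  have hv1 := hv.trans_le (min_le_left _ _)
  have hv2 := hv.trans_le (min_le_right _ _)
  have h1 := hs z v hz1 hv1
  have h2 : φ z = φ' z := hball (by rw [dist_eq_norm]; linarith)
  have h3 : Real.circleAverage (fun ζ : ℂ => φ (z + ζ • v)) 0 1 =
      Real.circleAverage (fun ζ : ℂ => φ' (z + ζ • v)) 0 1 := by
    unfold Real.circleAverage
    congr 1
    refine intervalIntegral.integral_congr fun θ _ => ?_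
    simp only
    refine hball ?_
    rw [dist_eq_norm]
    have h4 : z + circleMap 0 1 θ • v - z0 = (z - z0) + circleMap 0 1 θ • v := by abel
    rw [h4]
    refine (norm_add_le _ _).trans_lt ?_
    rw [norm_smul, norm_circleMap_zero, abs_one, one_mul]
    linarith
  rw [h2, h3] at h1
  exact h1

/-- affine discs in a fixed direction -/
theorem SubM_dir {φ : E → ℝ} {z0 : E} (hs : SubM φ z0) (v : E) (hv : ‖v‖ ≤ 1) :
    ∃ r0 : ℝ, 0 < r0 ∧ ∀ r, 0 < r → r < r0 →
      φ z0 ≤ Real.circleAverage (fun x => φ (z0 + x • v)) 0 r := by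
  obtain ⟨r0, hr0, hs⟩ := hs
  refine ⟨r0, hr0, fun r hr hr' => ?_⟩
  have h1 := hs z0 ((r : ℂ) • v) (by simpa using hr0) (by
    rw [norm_smul, Complex.norm_real, Real.norm_eq_abs, abs_of_pos hr]
    nlinarith)
  refine h1.trans (le_of_eq ?_)
  unfold Real.circleAverage
  congr 1
  refine intervalIntegral.integral_congr fun θ _ => ?_
  simp only
  rw [smul_smul]
  have : circleMap 0 1 θ * (r : ℂ) = circleMap 0 r θ := by
    simp only [circleMap]
    push_cast
    ring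
  rw [this]

theorem circleAverage_shift (f : ℂ → ℝ) (c : ℂ) (r : ℝ) :
    Real.circleAverage f c r = Real.circleAverage (fun x => f (c + x)) 0 r := by
  unfold Real.circleAverage
  congr 1
  refine intervalIntegral.integral_congr fun θ _ => ?_
  simp only [circleMap, zero_add]

theorem circleAverage_congr_near {f g : ℂ → ℝ} {c : ℂ} (h : f =ᶠ[𝓝 c] g) :
    ∃ r0 : ℝ, 0 < r0 ∧ ∀ r, 0 < r → r < r0 →
      Real.circleAverage f c r = Real.circleAverage g c r := by
  obtain ⟨ε, hε, hball⟩ := Metric.eventually_nhds_iff.1 h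
  refine ⟨ε, hε, fun r hr hr' => ?_⟩
  unfold Real.circleAverage
  congr 1
  refine intervalIntegral.integral_congr fun θ _ => ?_
  refine hball ?_
  rw [dist_eq_norm]
  have : circleMap c r θ - c = circleMap 0 r θ := by simp [circleMap]
  rw [this, norm_circleMap_zero, abs_of_pos hr]
  exact hr'

/-! ### Local potentials -/

theorem lev_log {f : E → ℝ} {z : E} {a b : ℝ} (h1 : a = 0 ∨ z.1 ≠ 0) (h2 : b = 0 ∨ z.2 ≠ 0)
    (h : f =ᶠ[𝓝 z] fun t => a * Real.log ‖t.1‖ + b * Real.log ‖t.2‖) (v : E) : lev f z v = 0 := by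
  unfold lev
  have hline : Tendsto (fun ζ : ℂ => z + ζ • v) (𝓝 0) (𝓝 z) := by
    have : Continuous (fun ζ : ℂ => z + ζ • v) := by fun_prop
    simpa using this.tendsto 0
  have h5 : (fun ζ : ℂ => f (z + ζ • v)) =ᶠ[𝓝 0]
      (fun ζ : ℂ => a • Real.log ‖z.1 + ζ * v.1‖) + (fun ζ : ℂ => b • Real.log ‖z.2 + ζ * v.2‖) := by
    filter_upwards [hline.eventually h] with ζ hζ
    rw [hζ]
    rfl
  have key : ∀ (c : ℝ) (p w : ℂ), (c = 0 ∨ p ≠ 0) →
      ContDiffAt ℝ 2 (fun ζ : ℂ => c • Real.log ‖p + ζ * w‖) 0 ∧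
      Laplacian.laplacian (fun ζ : ℂ => c • Real.log ‖p + ζ * w‖) 0 = 0 := by
    intro c p w hc
    rcases hc with rfl | hp
    · have : (fun ζ : ℂ => (0 : ℝ) • Real.log ‖p + ζ * w‖) = fun _ : ℂ => (0 : ℝ) := by
        funext ζ
        simp
      rw [this]
      refine ⟨contDiffAt_const, ?_⟩
      rw [InnerProductSpace.laplacian_const]
      rfl
    · have hharm : InnerProductSpace.HarmonicAt (fun ζ : ℂ => Real.log ‖p + ζ * w‖) 0 := by
        refine AnalyticAt.harmonicAt_log_norm (f := fun ζ : ℂ => p + ζ * w) (by fun_prop) ?_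
        simpa using hp
      refine ⟨hharm.1.const_smul c, ?_⟩
      have h6 := InnerProductSpace.laplacian_smul c hharm.1
      rw [hharm.2.self_of_nhds] at h6
      refine Eq.trans h6 ?_
      simp
  obtain ⟨c1, c2⟩ := key a z.1 v.1 h1
  obtain ⟨d1, d2⟩ := key b z.2 v.2 h2
  rw [(InnerProductSpace.laplacian_congr_nhds h5).self_of_nhds,
    ContDiffAt.laplacian_add c1 d1, c2, d2, add_zero]

theorem pot0 {z : E} (hz : z.1 ∉ Lam) : PotAt Phi 0 z Phi := by
  refine ⟨?_, Eventually.of_forall fun z' _ v => ?_⟩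
  · unfold SmAt
    filter_upwards [off_nhds hz] with t ht
    exact Phi_smooth ht
  · refine lev_log (a := 0) (b := 0) (Or.inl rfl) (Or.inl rfl) ?_ v
    refine Eventually.of_forall fun t => ?_
    show Phi t - Phi t = _
    ring

theorem ne_of_W3 {t : E} (h : tr 3 t ∈ W) : t.1 ≠ 0 ∧ t.2 ≠ 0 := by
  have htW1 : t.1 * t.2 ∉ Lam := h.1
  constructor
  · intro h
    rw [h, zero_mul] at htW1
    exact htW1 Lam_zero
  · intro h
    rw [h, mul_zero] at htW1
    exact htW1 Lam_zero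

theorem ne_of_W2 {t : E} (h : tr 2 t ∈ W) : t.1 ≠ 0 ∧ t.2 ≠ 0 := by
  have htW1 : t.1 * t.2 ∉ Lam := h.1
  constructor
  · intro h
    rw [h, zero_mul] at htW1
    exact htW1 Lam_zero
  · intro h
    rw [h, mul_zero] at htW1
    exact htW1 Lam_zero

theorem pot3 {z : E} (hz : z ∈ V 3) : PotAt Phi 3 z Th := by
  refine ⟨Eventually.of_forall fun t => Th_smooth t, ?_⟩
  filter_upwards [V3_open.mem_nhds hz] with z' hz' hW v
  refine lev_log (a := 0) (b := -2) (Or.inl rfl) (Or.inr (ne_of_W3 hW).2) ?_ v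
  filter_upwards [V3_open.mem_nhds hz', (W_open.preimage tr3_cont).mem_nhds hW] with t ht htW
  obtain ⟨k1, k2⟩ := ne_of_W3 htW
  have e1 : (tr 3 t).1 = t.1 * t.2 := rfl
  have e2 : (tr 3 t).2 - (tr 3 t).1 = t.1 * t.2 ^ 2 := by
    show t.1 * t.2 ^ 2 + t.1 * t.2 - t.1 * t.2 = t.1 * t.2 ^ 2
    ring
  have e3 := Phi3 (z := tr 3 t) (by rw [e1]; exact mul_ne_zero k1 k2) (by rw [e1]; exact ht.1)
    (by rw [e2]; exact mul_ne_zero k1 (pow_ne_zero 2 k2))
  rw [sg_tr3 k1 k2, e2, e1] at e3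
  have e4 : t.1 * t.2 ^ 2 / (t.1 * t.2) = t.2 := by field_simp
  rw [e4] at e3
  rw [e3, Real.log_pow]
  push_cast
  ring

/-- the smooth part of `Φ` in the second coordinate system -/
noncomputable def P2 (z : E) : ℝ :=
  2 * Real.log (1 + ‖z.2 + z.1 * z.2‖ ^ 2) + Real.log (1 + (‖z.1‖ ^ 2) ^ 2 * ‖z.2‖ ^ 2)

theorem P2_smooth (z : E) : ContDiffAt ℝ ∞ P2 z := by
  have hfst : ContDiffAt ℝ ∞ (fun z : E => z.1) z := contDiffAt_fst
  have hsnd : ContDiffAt ℝ ∞ (fun z : E => z.2) z := contDiffAt_snd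
  have h1 : ContDiffAt ℝ ∞ (fun z : E => 1 + ‖z.2 + z.1 * z.2‖ ^ 2) z :=
    contDiffAt_const.add (nsq_cd (hsnd.add (hfst.mul hsnd)))
  have h2 : ContDiffAt ℝ ∞ (fun z : E => 1 + (‖z.1‖ ^ 2) ^ 2 * ‖z.2‖ ^ 2) z :=
    contDiffAt_const.add (((nsq_cd hfst).pow 2).mul (nsq_cd hsnd))
  exact (contDiffAt_const.mul (h1.log (by positivity))).add (h2.log (by positivity))

theorem V2_open : IsOpen (V 2) := by
  have h1 : IsOpen {z : E | ‖z.1 * z.2‖ < 1 / 8} :=
    isOpen_lt (by fun_prop) continuous_const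
  have h2 : IsOpen {z : E | ‖z.2‖ < 1 / 8} :=
    isOpen_lt (by fun_prop) continuous_const
  exact h1.inter h2

theorem tr2_cont : Continuous (tr 2) := by
  show Continuous fun z : E => (z.1 * z.2, z.2 + z.1 * z.2)
  fun_prop

theorem Phi2 {t : E} (k1 : t.1 ≠ 0) (k2 : t.2 ≠ 0) (ht : ‖t.1 * t.2‖ < 1 / 8) :
    Phi (tr 2 t) = P2 t - 2 * Real.log ‖t.1‖ := by
  show Phi (t.1 * t.2, t.2 + t.1 * t.2) = _
  have hr : red (t.1 * t.2) = t.1 * t.2 := red_eq_self (by linarith)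
  have hc : chi (t.1 * t.2) = 1 := chi_one (by rw [hr]; exact ht.le)
  unfold Phi L2 P2
  simp only
  rw [hr, hc]
  have n1 : 0 < ‖t.1‖ := norm_pos_iff.2 k1
  have n2 : 0 < ‖t.2‖ := norm_pos_iff.2 k2
  have e1 : t.2 + t.1 * t.2 - t.1 * t.2 = t.2 := by ring
  have e2 : ‖t.2‖ ^ 2 + ‖t.1 * t.2‖ ^ 4 = ‖t.2‖ ^ 2 * (1 + (‖t.1‖ ^ 2) ^ 2 * ‖t.2‖ ^ 2) := by
    rw [norm_mul]
    ring
  have hp1 : (0 : ℝ) < 1 + ‖t.2 + t.1 * t.2‖ ^ 2 := by positivity
  have hp2 : (0 : ℝ) < 1 + (‖t.1‖ ^ 2) ^ 2 * ‖t.2‖ ^ 2 := by positivity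
  rw [e1, e2, Real.log_div (by positivity) hp1.ne', Real.log_mul (by positivity) hp2.ne',
    norm_mul, mul_pow, Real.log_mul (by positivity) (by positivity), Real.log_pow, Real.log_pow]
  push_cast
  ring

theorem pot2 {z : E} (hz : z ∈ V 2) : PotAt Phi 2 z P2 := by
  refine ⟨Eventually.of_forall fun t => P2_smooth t, ?_⟩
  filter_upwards [V2_open.mem_nhds hz] with z' hz' hW v
  refine lev_log (a := 2) (b := 0) (Or.inr (ne_of_W2 hW).1) (Or.inl rfl) ?_ v
  filter_upwards [V2_open.mem_nhds hz', (W_open.preimage tr2_cont).mem_nhds hW] with t ht htW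
  obtain ⟨k1, k2⟩ := ne_of_W2 htW
  rw [Phi2 k1 k2 ht.1]
  ring

/-- the hypothesis on `u` -/
def HH (u : E → ℝ) : Prop := ∀ j, ∀ z ∈ V j, ∃ f : E → ℝ, C1At f z ∧
    (∀ᶠ z' in 𝓝 z, tr j z' ∈ W → f z' = u (tr j z')) ∧
    ∀ ρ, PotAt Phi j z ρ → SubM (fun t => ρ t + f t) z

theorem HH.xx {u : E → ℝ} (h : HH u) : XX u := fun j z hz => by
  obtain ⟨f, h1, h2, -⟩ := h j z hz
  exact ⟨f, h1, h2⟩

theorem sub_gen {u : E → ℝ} (h : HH u) {j : Fin 5} (hd : Dense {z | tr j z ∈ W}) {z : E}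
    (hz : z ∈ V j) {ρ : E → ℝ} (hρ : PotAt Phi j z ρ) : SubM (fun t => ρ t + Fx u j t) z := by
  obtain ⟨f, h1, h2, h3⟩ := h j z hz
  refine SubM_congr ?_ (h3 ρ hρ)
  filter_upwards [Fx_local hd h1 h2] with t ht
  rw [ht]

theorem sub_ph {u : E → ℝ} (h : HH u) {z : E} (hz : z.1 ∉ Lam) : SubM (ph u) z :=
  sub_gen h dense0 (Or.inl hz) (pot0 hz)

theorem sub_ps {u : E → ℝ} (h : HH u) {z : E} (hz : z ∈ V 3) : SubM (ps u) z := by
  refine SubM_congr (Eventually.of_forall fun t => ?_) (sub_gen h dense3 hz (pot3 hz))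
  exact add_comm _ _

theorem V3_line (η : ℂ) : ((0, η) : E) ∈ V 3 := by rw [V3_mem]; simp

theorem V2_line (ζ : ℂ) : ((ζ, 0) : E) ∈ V 2 := by
  show ‖ζ * 0‖ < 1 / 8 ∧ ‖(0 : ℂ)‖ < 1 / 8
  simp

/-- constancy on the exceptional curve -/
theorem exc_const (hP : StSph) {u : E → ℝ} (h : HH u) : ∃ c, ∀ η : ℂ, ps u (0, η) = c := by
  have hu := h.xx
  refine hP (fun η => ps u (0, η)) (fun ζ => Fx u 2 (ζ, 0)) ?_ ?_ ?_ ?_ ?_
  · rw [continuous_iff_continuousAt]
    intro η
    exact ContinuousAt.comp (g := ps u) (f := fun η : ℂ => ((0, η) : E))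
      (C1_at (ps_C1 hu (V3_line η))).continuousAt (by fun_prop)
  · exact ContinuousAt.comp (g := Fx u 2) (f := fun ζ : ℂ => ((ζ, 0) : E))
      (C1_at (Fx_C1 dense2 (hu 2 _ (V2_line 0)))).continuousAt (by fun_prop)
  · intro η hη
    have e2 : Th ((0, η) : E) = 0 := by unfold Th; simp
    show Fx u 3 (0, η) + Th (0, η) = _
    rw [e2, add_zero]
    have hcont : ContinuousAt (fun t : E => ((t.2⁻¹, t.1 * t.2 ^ 2) : E)) (0, η) := by
      have h1 : ContinuousAt (fun t : E => t.2) (0, η) := continuous_snd.continuousAt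
      have h2 : ContinuousAt (fun t : E => t.1 * t.2 ^ 2) (0, η) := by fun_prop
      exact (h1.inv₀ hη).prodMk h2
    have h3 := Fx_comp (u := u) dense3 dense2
      (σ := fun t : E => ((t.2⁻¹, t.1 * t.2 ^ 2) : E)) (z := ((0, η) : E))
      (hu 3 _ (V3_line η)) (by simpa using hu 2 _ (V2_line η⁻¹)) hcont (by
      refine Eventually.of_forall fun t ht => ?_
      have k2 := (ne_of_W3 ht).2
      have h4 : tr 2 ((t.2⁻¹, t.1 * t.2 ^ 2) : E) = tr 3 t := by
        show ((t.2⁻¹ * (t.1 * t.2 ^ 2), t.1 * t.2 ^ 2 + t.2⁻¹ * (t.1 * t.2 ^ 2)) : E) =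
          (t.1 * t.2, t.1 * t.2 ^ 2 + t.1 * t.2)
        have : t.2⁻¹ * (t.1 * t.2 ^ 2) = t.1 * t.2 := by field_simp
        rw [this]
      rw [h4]
      exact ⟨ht, rfl⟩)
    simpa using h3
  · intro η
    obtain ⟨r0, hr0, hs⟩ := SubM_dir (sub_ps h (V3_line η)) (0, 1) (by simp [Prod.norm_def])
    refine ⟨r0, hr0, fun r hr hr' => (hs r hr hr').trans (le_of_eq ?_)⟩
    rw [circleAverage_shift (fun η : ℂ => ps u (0, η)) η r]
    congr 1
    funext x
    congr 1
    simp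
  · have h1 := sub_gen h dense2 (V2_line 0) (pot2 (V2_line 0))
    obtain ⟨r0, hr0, hs⟩ := SubM_dir h1 (1, 0) (by simp [Prod.norm_def])
    refine ⟨r0, hr0, fun r hr hr' => ?_⟩
    have h2 := hs r hr hr'
    have e : ∀ ζ : ℂ, P2 ((ζ, 0) : E) = 0 := by
      intro ζ
      unfold P2
      simp
    have e3 : (fun x : ℂ => P2 (((0, 0) : E) + x • ((1, 0) : E)) +
        Fx u 2 (((0, 0) : E) + x • ((1, 0) : E))) = fun x => Fx u 2 (x, 0) := by
      funext x
      have : ((0, 0) : E) + x • ((1, 0) : E) = (x, 0) := by simp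
      rw [this, e, zero_add]
    rw [e3] at h2
    simp only [e, zero_add] at h2
    exact h2

theorem ps_exc (hP : StSph) {u : E → ℝ} (h : HH u) (w : ℂ) :
    fderiv ℝ (ps u) ((0, -1) : E) (0, w) = 0 := by
  obtain ⟨c, hc⟩ := exc_const hP h
  have h2 : HasFDerivAt (ps u) (fderiv ℝ (ps u) ((0, -1) : E)) ((0, -1) : E) :=
    ((C1_at (ps_C1 h.xx (V3_line (-1)))).differentiableAt (by norm_num)).hasFDerivAt
  have h3 : HasFDerivAt (fun η : ℂ => ((0, η) : E)) (ContinuousLinearMap.inr ℝ ℂ ℂ) (-1) :=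
    (hasFDerivAt_const (0 : ℂ) (-1 : ℂ)).prodMk (hasFDerivAt_id (-1 : ℂ))
  have h4 : HasFDerivAt (fun η : ℂ => ps u (0, η))
    ((fderiv ℝ (ps u) ((0, -1) : E)).comp (ContinuousLinearMap.inr ℝ ℂ ℂ)) (-1) :=
    HasFDerivAt.comp (g := ps u) (-1 : ℂ) h2 h3
  have h5 := h4.fderiv
  have h6 : (fun η : ℂ => ps u (0, η)) = fun _ => c := funext hc
  rw [h6, fderiv_fun_const] at h5
  have h7 := congrArg (fun L : ℂ →L[ℝ] ℝ => L w) h5
  simpa using h7.symm

/-- constancy on the curve `y = 0` -/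
theorem vv_const (hT : StTor) {u : E → ℝ} (hper : Per u) (h : HH u) : ∃ c, ∀ x, vv u x = c := by
  have hu := h.xx
  refine hT (vv u) (vv_cont hu hper) (fun x l hl => vv_per hu hper hl x) fun x => ?_
  by_cases hx : x ∈ Lam
  · obtain ⟨r0, hr0, hs⟩ := SubM_dir (sub_ps h (z := ((0, -1) : E)) (V3_line (-1))) (-1, 0)
      (by simp [Prod.norm_def])
    obtain ⟨r1, hr1, hc⟩ := circleAverage_congr_near (vv_on hu hper hx)
    refine ⟨min r0 r1, lt_min hr0 hr1, fun r hr hr' => ?_⟩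
    rw [hc r hr (hr'.trans_le (min_le_right _ _)), circleAverage_shift]
    have h1 := hs r hr (hr'.trans_le (min_le_left _ _))
    have h2 : vv u x = ps u (0, -1) := by
      unfold vv
      rw [if_pos hx]
    rw [h2]
    refine h1.trans (le_of_eq ?_)
    congr 1
    funext t
    congr 1
    simp
  · obtain ⟨r0, hr0, hs⟩ := SubM_dir (sub_ph h (z := ((x, 0) : E)) hx) (1, 0)
      (by simp [Prod.norm_def])
    obtain ⟨r1, hr1, hc⟩ := circleAverage_congr_near (vv_off (u := u) hx)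
    refine ⟨min r0 r1, lt_min hr0 hr1, fun r hr hr' => ?_⟩
    rw [hc r hr (hr'.trans_le (min_le_right _ _)), circleAverage_shift]
    have h1 := hs r hr (hr'.trans_le (min_le_left _ _))
    have h2 : vv u x = ph u (x, 0) := by
      unfold vv
      rw [if_neg hx]
    rw [h2]
    refine h1.trans (le_of_eq ?_)
    congr 1
    funext t
    congr 1
    simp

/-! ### The end of the proof -/

theorem gg_per {u : E → ℝ} (hu : XX u) (hper : Per u) {x l : ℂ} (hl : l ∈ Lam) (hx : x ∉ Lam) :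
    gg u (x + l) = gg u x := by
  have h1 : (fun z : E => ph u (z + (l, 0))) =ᶠ[𝓝 ((x, 0) : E)] ph u := by
    filter_upwards [off_nhds (z := ((x, 0) : E)) hx] with t ht
    exact ph_per hu hper hl ht
  have h2 := h1.fderiv_eq (𝕜 := ℝ)
  have h3 := fderiv_comp_add_right (𝕜 := ℝ) (f := ph u) (x := ((x, 0) : E)) ((l, 0) : E)
  rw [h3] at h2
  have e : ((x, 0) : E) + (l, 0) = (x + l, 0) := by simp
  rw [e] at h2
  unfold gg
  rw [h2]

theorem deriv_rel {u : E → ℝ} (hu : XX u) {x : ℂ} (hx : x ≠ 0) (h8 : ‖x‖ < 1 / 8) (w : ℂ) :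
    fderiv ℝ (ph u) ((x, 0) : E) (0, w) =
      fderiv ℝ (ps u) ((-x, -1) : E) (-w, w / x) - 2 * (w / x).re := by
  have hxL : x ∉ Lam := small_notMem hx (by linarith)
  have hline : HasDerivAt (fun t : ℝ => ((x, t • w) : E)) (0, w) 0 := by
    have h1 : HasDerivAt (fun t : ℝ => t • w) w 0 := by
      simpa using (hasDerivAt_id (0 : ℝ)).smul_const w
    exact (hasDerivAt_const (0 : ℝ) x).prodMk h1
  have hA : HasDerivAt (fun t : ℝ => ph u (x, t • w)) (fderiv ℝ (ph u) ((x, 0) : E) (0, w)) 0 := by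
    have h1 : HasFDerivAt (ph u) (fderiv ℝ (ph u) ((x, 0) : E)) (x, (0 : ℝ) • w) := by
      rw [zero_smul]
      exact ((C1_at (ph_C1 hu (z := ((x, 0) : E)) hxL)).differentiableAt (by norm_num)).hasFDerivAt
    exact h1.comp_hasDerivAt (0 : ℝ) hline
  have hq : HasDerivAt (fun t : ℝ => (t • w - x) / x) (w / x) 0 := by
    have h1 : HasDerivAt (fun t : ℝ => t • w) w 0 := by
      simpa using (hasDerivAt_id (0 : ℝ)).smul_const w
    exact (h1.sub_const x).div_const x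
  have hq0 : ((0 : ℝ) • w - x) / x = -1 := by
    rw [zero_smul, zero_sub, neg_div, div_self hx]
  have hp : HasDerivAt (fun t : ℝ => x ^ 2 / (t • w - x)) (-w) 0 := by
    have h1 : HasDerivAt (fun t : ℝ => t • w - x) w 0 := by
      simpa using ((hasDerivAt_id (0 : ℝ)).smul_const w).sub_const x
    have h2 := (hasDerivAt_const (0 : ℝ) (x ^ 2)).div h1 (by simpa using hx)
    refine h2.congr_deriv ?_
    simp only [zero_smul, zero_sub, zero_mul]
    field_simp
  have hB : HasDerivAt (fun t : ℝ => ps u (sg (x, t • w)))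
      (fderiv ℝ (ps u) ((-x, -1) : E) (-w, w / x)) 0 := by
    have h1 : HasFDerivAt (ps u) (fderiv ℝ (ps u) ((-x, -1) : E)) (sg (x, (0 : ℝ) • w)) := by
      have h2 : sg ((x, (0 : ℝ) • w) : E) = (-x, -1) := by
        rw [zero_smul]
        unfold sg
        apply Prod.ext
        · simp only
          field_simp
          ring
        · simp only
          field_simp
          ring
      rw [h2]
      exact ((C1_at (ps_C1 hu (mem3 h8))).differentiableAt (by norm_num)).hasFDerivAt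
    have h2 : HasDerivAt (fun t : ℝ => sg (x, t • w)) ((-w, w / x) : E) 0 := hp.prodMk hq
    exact h1.comp_hasDerivAt (0 : ℝ) h2
  have hC : HasDerivAt (fun t : ℝ => Real.log (‖(t • w - x) / x‖ ^ 2)) (-(2 * (w / x).re)) 0 := by
    have h1 := hq.norm_sq
    have h2 := h1.log (by rw [hq0]; simp)
    refine h2.congr_deriv ?_
    rw [hq0]
    simp [Complex.inner]
  have hev : ∀ᶠ t in 𝓝 (0 : ℝ), t • w - x ≠ 0 ∧ ‖t • w - x‖ < 1 / 8 := by
    have hc : ContinuousAt (fun t : ℝ => t • w - x) 0 := by fun_prop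
    refine (hc.eventually_ne (by simpa using hx)).and ?_
    exact hc.norm.eventually_lt_const (by simpa using h8)
  have hD : (fun t : ℝ => ph u (x, t • w)) =ᶠ[𝓝 0]
      fun t : ℝ => ps u (sg (x, t • w)) + Real.log (‖(t • w - x) / x‖ ^ 2) := by
    filter_upwards [hev] with t ht
    exact rel hu (z := ((x, t • w) : E)) hx h8 ht.1 ht.2
  have h1 := (hB.add hC).congr_of_eventuallyEq hD
  rw [hA.unique h1]
  ring

theorem gg_lim (hP : StSph) {u : E → ℝ} (h : HH u) :
    Tendsto (fun x => x * gg u x) (𝓝[≠] 0) (𝓝 (-1)) := by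
  have hu := h.xx
  set N : ℂ → (E →L[ℝ] ℝ) := fun x => fderiv ℝ (ps u) ((-x, -1) : E) with hN
  have hNc : ContinuousAt N 0 := by
    have h1 : ContDiffAt ℝ 0 (fderiv ℝ (ps u)) ((-0, -1) : E) :=
      (C1_at (ps_C1 hu (mem3 (by simp)))).fderiv_right (by norm_num)
    exact ContinuousAt.comp (g := fderiv ℝ (ps u)) (f := fun x : ℂ => ((-x, -1) : E))
      h1.continuousAt (by fun_prop)
  have hN0 : (N 0).comp (ContinuousLinearMap.inr ℝ ℂ ℂ) = 0 := by
    ext w
    simp only [hN, neg_zero]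
    exact ps_exc hP h w
  have hM : Tendsto (fun x => ‖(N x).comp (ContinuousLinearMap.inr ℝ ℂ ℂ)‖) (𝓝 0) (𝓝 0) := by
    have h1 : ContinuousAt (fun x => (N x).comp (ContinuousLinearMap.inr ℝ ℂ ℂ)) 0 :=
      hNc.clm_comp continuousAt_const
    have h2 := h1.norm.tendsto
    rw [hN0, norm_zero] at h2
    exact h2
  have hM2 : Tendsto (fun x : ℂ => ‖x‖ * ‖N x‖) (𝓝 0) (𝓝 0) := by
    have h1 : Tendsto (fun x : ℂ => ‖x‖) (𝓝 0) (𝓝 0) := by
      simpa using (continuous_norm (E := ℂ)).tendsto 0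
    have h2 := h1.mul hNc.norm.tendsto
    simpa using h2
  have hsum := (hM2.add hM).mono_left (nhdsWithin_le_nhds (s := {0}ᶜ))
  rw [add_zero] at hsum
  rw [tendsto_iff_norm_sub_tendsto_zero]
  refine squeeze_zero' (Eventually.of_forall fun x => norm_nonneg _) ?_ hsum
  have hsmall : ∀ᶠ x in 𝓝[≠] (0 : ℂ), ‖x‖ < 1 / 8 := by
    refine nhdsWithin_le_nhds ?_
    have hc : ContinuousAt (fun x : ℂ => ‖x‖) 0 := by fun_prop
    exact hc.eventually_lt_const (by simp)
  filter_upwards [hsmall, self_mem_nhdsWithin] with x hx8 hx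
  have hx0 : x ≠ 0 := hx
  have hnx : 0 < ‖x‖ := norm_pos_iff.2 hx0
  have hb : ∀ w : ℂ, ‖w‖ = 1 → ‖x‖ * |N x (-w, w / x)| ≤
      ‖x‖ * ‖N x‖ + ‖(N x).comp (ContinuousLinearMap.inr ℝ ℂ ℂ)‖ := by
    intro w hw
    have e : ((-w, w / x) : E) = (-w, 0) + (0, w / x) := by simp
    rw [e, map_add]
    have h1 : |N x (-w, 0)| ≤ ‖N x‖ := by
      have h2 := (N x).le_opNorm ((-w, 0) : E)
      have h3 : ‖((-w, 0) : E)‖ = 1 := by
        rw [Prod.norm_def]
        simp [hw]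
      rw [h3, mul_one] at h2
      exact h2
    have h2 : |N x (0, w / x)| ≤ ‖(N x).comp (ContinuousLinearMap.inr ℝ ℂ ℂ)‖ / ‖x‖ := by
      have h3 := ((N x).comp (ContinuousLinearMap.inr ℝ ℂ ℂ)).le_opNorm (w / x)
      rw [norm_div, hw, mul_one_div] at h3
      exact h3
    calc ‖x‖ * |N x (-w, 0) + N x (0, w / x)| ≤ ‖x‖ * (|N x (-w, 0)| + |N x (0, w / x)|) :=
          mul_le_mul_of_nonneg_left (abs_add_le _ _) hnx.le
      _ ≤ ‖x‖ * (‖N x‖ + ‖(N x).comp (ContinuousLinearMap.inr ℝ ℂ ℂ)‖ / ‖x‖) :=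
          mul_le_mul_of_nonneg_left (add_le_add h1 h2) hnx.le
      _ = _ := by field_simp
  have hval : x * gg u x - -1 = x / 2 * (((N x (-1, 1 / x) : ℝ) : ℂ) -
      Complex.I * ((N x (-Complex.I, Complex.I / x) : ℝ) : ℂ)) := by
    unfold gg
    rw [deriv_rel hu hx0 hx8, deriv_rel hu hx0 hx8]
    have h1 : ((1 / x).re : ℂ) - Complex.I * ((Complex.I / x).re : ℂ) = 1 / x := by
      have h2 : (Complex.I / x).re = -(1 / x).im := by
        have : Complex.I / x = Complex.I * (1 / x) := by ring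
        rw [this, Complex.mul_re, Complex.I_re, Complex.I_im]
        ring
      rw [h2]
      push_cast
      rw [mul_neg, sub_neg_eq_add, mul_comm]
      exact Complex.re_add_im (1 / x)
    have h3 : x * (1 / x) = 1 := by field_simp
    push_cast
    show x * ((((N x (-1, 1 / x) : ℝ) : ℂ) - 2 * ((1 / x).re : ℂ) -
      Complex.I * (((N x (-Complex.I, Complex.I / x) : ℝ) : ℂ) - 2 * ((Complex.I / x).re : ℂ))) / 2)
      - -1 = _
    linear_combination (-x) * h1 - h3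
  rw [hval, norm_mul, norm_div, Complex.norm_two]
  have h1 := hb 1 (by simp)
  have h2 := hb Complex.I (by simp)
  have h3 : ‖((N x (-1, 1 / x) : ℝ) : ℂ) - Complex.I * ((N x (-Complex.I, Complex.I / x) : ℝ) : ℂ)‖ ≤
      |N x (-1, 1 / x)| + |N x (-Complex.I, Complex.I / x)| := by
    refine (norm_sub_le _ _).trans ?_
    rw [norm_mul, Complex.norm_I, one_mul, Complex.norm_real, Complex.norm_real]
    exact le_rfl
  calc ‖x‖ / 2 * ‖((N x (-1, 1 / x) : ℝ) : ℂ) -
        Complex.I * ((N x (-Complex.I, Complex.I / x) : ℝ) : ℂ)‖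
      ≤ ‖x‖ / 2 * (|N x (-1, 1 / x)| + |N x (-Complex.I, Complex.I / x)|) :=
        mul_le_mul_of_nonneg_left h3 (by positivity)
    _ ≤ _ := by linarith

theorem gd_eq (u : E → ℝ) : gd (ph u) = gg u := rfl

theorem gg_hol (hM : StMvp) (hS : StScale) (hT : StTor) {u : E → ℝ} (hper : Per u) (h : HH u)
    {x : ℂ} (hx : x ∉ Lam) : DifferentiableAt ℂ (gg u) x := by
  obtain ⟨c, hc⟩ := vv_const hT hper h
  have h1 : DifferentiableOn ℂ (gg u) Lamᶜ := by
    refine hM (gg u) Lamᶜ Lam_closed.isOpen_compl ?_ ?_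
    · intro y hy
      refine ContinuousAt.continuousWithinAt ?_
      have h2 : ContDiffAt ℝ 0 (fderiv ℝ (ph u)) ((y, 0) : E) :=
        (C1_at (ph_C1 h.xx (z := ((y, 0) : E)) hy)).fderiv_right (by norm_num)
      have h3 : ContinuousAt (fun y : ℂ => fderiv ℝ (ph u) ((y, 0) : E)) y :=
        ContinuousAt.comp (g := fderiv ℝ (ph u)) (f := fun x : ℂ => ((x, 0) : E))
          h2.continuousAt (by fun_prop)
      have h4 : ∀ v : E, ContinuousAt (fun y : ℂ => ((fderiv ℝ (ph u) ((y, 0) : E) v : ℝ) : ℂ)) y :=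
        fun v => Complex.continuous_ofReal.continuousAt.comp (h3.clm_apply continuousAt_const)
      unfold gg
      exact ((h4 _).sub (continuousAt_const.mul (h4 _))).div_const 2
    · intro y hy
      rw [← gd_eq]
      refine hS (ph u) y c (ph_C1 h.xx (z := ((y, 0) : E)) hy) ?_
        (sub_ph h (z := ((y, 0) : E)) hy)
      filter_upwards [vv_off (u := u) hy] with t ht
      rw [← ht, hc t]
  exact (h1 x hx).differentiableAt (Lam_closed.isOpen_compl.mem_nhds hx)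

/-- **there is no semipositive current with potentials of class `C¹`** -/
theorem t1 (hM : StMvp) (hS : StScale) (hT : StTor) (hP : StSph) (hR : StRes) : StNot1 := by
  classical
  intro u hper hu
  have h : HH u := hu
  have hoff : ∀ x, x ∉ Lam → (fun x => if x ∈ Lam then 0 else gg u x) =ᶠ[𝓝 x] gg u := by
    intro x hx
    filter_upwards [Lam_closed.isOpen_compl.mem_nhds hx] with t ht
    exact if_neg ht
  refine hR (fun x => if x ∈ Lam then 0 else gg u x) (fun x hx => ?_) ?_ ?_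
  · exact (gg_hol hM hS hT hper h hx).congr_of_eventuallyEq (hoff x hx)
  · intro x l hl
    by_cases hx : x ∈ Lam
    · rw [if_pos hx, if_pos (Lam_add hx hl)]
    · rw [if_neg hx, if_neg (fun h => hx ((Lam_add_iff hl).1 h))]
      exact gg_per h.xx hper hl hx
  · refine (gg_lim hP h).congr' ?_
    have hsmall : ∀ᶠ x in 𝓝[≠] (0 : ℂ), ‖x‖ < 1 / 2 := by
      refine nhdsWithin_le_nhds ?_
      have hc : ContinuousAt (fun x : ℂ => ‖x‖) 0 := by fun_prop
      exact hc.eventually_lt_const (by simp)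
    filter_upwards [hsmall, self_mem_nhdsWithin] with x hx8 hx
    rw [if_neg (small_notMem hx hx8)]

end Pool.Agent.Y375.SP.C1
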