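import Pool.Agent.Y375.SP.Not

set_option autoImplicit false

/-!
# There is no semipositive representative: the end of the proof (project SP of helper184)
-/

open Set Topology Filter
open scoped ContDiff

namespace Pool.Agent.Y375.SP

open Pool.Agent.Y184.SP

/-- twice the derivative in the direction `y` on the curve `y = 0` -/
noncomputable def gg (u : E → ℝ) (x : ℂ) : ℂ :=
  (((fderiv ℝ (ph u) ((x, 0) : E) (0, 1) : ℝ) : ℂ) -
    Complex.I * ((fderiv ℝ (ph u) ((x, 0) : E) (0, Complex.I) : ℝ) : ℂ)) / 2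

theorem gg_diff {u : E → ℝ} (hu : Ext u) (hper : Per u) (hL : StLiou)
    (hpos : ∀ z ∈ W, ∀ v, 0 ≤ lev (fun z' => Phi z' + u z') z v) {x : ℂ} (hx : x ∉ Lam) :
    DifferentiableAt ℂ (gg u) x := by
  have h0 := hL (vv u) (vv_smooth hu hper) (vv_bdd hu hper) (vv_lap hu hper hpos) x
  rw [vv_lap_off hu hx] at h0
  have hs : ContDiffAt ℝ 2 (ph u) ((x, 0) : E) := cd2 (ph_smooth hu hx)
  have hmix := S_mixed hs h0 (fun v => ph_pos hu hpos hx v)
  set D2 := fderiv ℝ (fderiv ℝ (ph u)) ((x, 0) : E) with hD2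
  have hD : HasFDerivAt (fderiv ℝ (ph u)) D2 ((x, 0) : E) :=
    ((hs.fderiv_right (m := 1) (by norm_num)).differentiableAt (by norm_num)).hasFDerivAt
  have hline : HasFDerivAt (fun x : ℂ => ((x, 0) : E)) (ContinuousLinearMap.inl ℝ ℂ ℂ) x :=
    (hasFDerivAt_id x).prodMk (hasFDerivAt_const (0 : ℂ) x)
  have hG : ∀ w : ℂ, HasFDerivAt (fun x : ℂ => ((fderiv ℝ (ph u) ((x, 0) : E) (0, w) : ℝ) : ℂ))
      (Complex.ofRealCLM.comp (((ContinuousLinearMap.apply ℝ ℝ ((0, w) : E)).comp D2).comp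
        (ContinuousLinearMap.inl ℝ ℂ ℂ))) x := by
    intro w
    have h1 : HasFDerivAt (fun x : ℂ => fderiv ℝ (ph u) ((x, 0) : E))
        (D2.comp (ContinuousLinearMap.inl ℝ ℂ ℂ)) x :=
      HasFDerivAt.comp (g := fderiv ℝ (ph u)) x hD hline
    have h2 := (ContinuousLinearMap.apply ℝ ℝ ((0, w) : E)).hasFDerivAt.comp x h1
    have h3 := Complex.ofRealCLM.hasFDerivAt.comp x h2
    exact h3
  have hg : HasFDerivAt (gg u) ((1 / 2 : ℂ) •
      (Complex.ofRealCLM.comp (((ContinuousLinearMap.apply ℝ ℝ ((0, 1) : E)).comp D2).comp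
        (ContinuousLinearMap.inl ℝ ℂ ℂ)) - Complex.I •
      Complex.ofRealCLM.comp (((ContinuousLinearMap.apply ℝ ℝ ((0, Complex.I) : E)).comp D2).comp
        (ContinuousLinearMap.inl ℝ ℂ ℂ)))) x := by
    have h1 := ((hG 1).sub ((hG Complex.I).const_smul Complex.I)).const_smul (1 / 2 : ℂ)
    refine h1.congr_of_eventuallyEq (Eventually.of_forall fun t => ?_)
    unfold gg
    simp only [Pi.smul_apply, Pi.sub_apply, smul_eq_mul]
    ring
  rw [differentiableAt_complex_iff_differentiableAt_real]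
  refine ⟨hg.differentiableAt, ?_⟩
  rw [hg.fderiv]
  have m1 := hmix (0, 1)
  have m2 := hmix (0, Complex.I)
  unfold S at m1 m2
  have e1 : Complex.I • ((1, 0) : E) = (Complex.I, 0) := by simp
  have e2 : Complex.I • ((0, 1) : E) = (0, Complex.I) := by simp
  have e3 : Complex.I • ((0, Complex.I) : E) = -(0, 1) := by simp
  rw [← hD2, e1, e2] at m1
  rw [← hD2, e1, e3, map_neg] at m2
  simp only [smul_apply, sub_apply,
    ContinuousLinearMap.comp_apply, ContinuousLinearMap.apply_apply,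
    ContinuousLinearMap.inl_apply, Complex.ofRealCLM_apply, smul_eq_mul]
  have m1' : ((D2 (Complex.I, 0) (0, Complex.I) : ℝ) : ℂ) = -((D2 (1, 0) (0, 1) : ℝ) : ℂ) := by
    have : D2 (Complex.I, 0) (0, Complex.I) = -D2 (1, 0) (0, 1) := by linarith
    rw [this]
    push_cast
    rfl
  have m2' : ((D2 (Complex.I, 0) (0, 1) : ℝ) : ℂ) = ((D2 (1, 0) (0, Complex.I) : ℝ) : ℂ) := by
    have : D2 (Complex.I, 0) (0, 1) = D2 (1, 0) (0, Complex.I) := by linarith
    rw [this]
  rw [m1', m2']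
  ring_nf
  rw [Complex.I_sq]
  ring

theorem gg_per {u : E → ℝ} (hu : Ext u) (hper : Per u) {x l : ℂ} (hl : l ∈ Lam) (hx : x ∉ Lam) :
    gg u (x + l) = gg u x := by
  have h1 : (fun z : E => ph u (z + (l, 0))) =ᶠ[𝓝 ((x, 0) : E)] ph u := by
    filter_upwards [(Lam_closed.isOpen_compl.preimage continuous_fst).mem_nhds hx] with t ht
    exact ph_per hu hper hl ht
  have h2 := h1.fderiv_eq (𝕜 := ℝ)
  have h3 := fderiv_comp_add_right (𝕜 := ℝ) (f := ph u) (x := ((x, 0) : E)) ((l, 0) : E)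
  rw [h3] at h2
  have e : ((x, 0) : E) + (l, 0) = (x + l, 0) := by simp
  rw [e] at h2
  unfold gg
  rw [h2]

theorem deriv_rel {u : E → ℝ} (hu : Ext u) {x : ℂ} (hx : x ≠ 0) (h8 : ‖x‖ < 1 / 8) (w : ℂ) :
    fderiv ℝ (ph u) ((x, 0) : E) (0, w) =
      fderiv ℝ (ps u) ((-x, -1) : E) (-w, w / x) - 2 * (w / x).re := by
  have hxL : x ∉ Lam := small_notMem hx (by linarith)
  have hline : HasDerivAt (fun t : ℝ => ((x, t • w) : E)) (0, w) 0 := by
    have h1 : HasDerivAt (fun t : ℝ => t • w) w 0 := by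
      simpa using (hasDerivAt_id (0 : ℝ)).smul_const w
    exact (hasDerivAt_const (0 : ℝ) x).prodMk h1
  have hA : HasDerivAt (fun t : ℝ => ph u (x, t • w)) (fderiv ℝ (ph u) ((x, 0) : E) (0, w)) 0 := by
    have h1 : HasFDerivAt (ph u) (fderiv ℝ (ph u) ((x, 0) : E)) (x, (0 : ℝ) • w) := by
      rw [zero_smul]
      exact ((cd2 (ph_smooth hu (z := ((x, 0) : E)) hxL)).differentiableAt (by norm_num)).hasFDerivAt
    exact h1.comp_hasDerivAt (0 : ℝ) hline
  -- the other side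
  have hq : HasDerivAt (fun t : ℝ => (t • w - x) / x) (w / x) 0 := by
    have h1 : HasDerivAt (fun t : ℝ => t • w) w 0 := by
      simpa using (hasDerivAt_id (0 : ℝ)).smul_const w
    exact (h1.sub_const x).div_const x
  have hq0 : ((0 : ℝ) • w - x) / x = -1 := by
    rw [zero_smul, zero_sub, neg_div, div_self hx]
  have hp : HasDerivAt (fun t : ℝ => x ^ 2 / (t • w - x)) (-w) 0 := by
    have h1 : HasDerivAt (fun t : ℝ => t • w - x) w 0 := by
      simpa using ((hasDerivAt_id (0 : ℝ)).smul_const w).sub_const x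
    have h2 := (hasDerivAt_const (0 : ℝ) (x ^ 2)).div h1 (by simpa using hx)
    refine h2.congr_deriv ?_
    simp only [zero_smul, zero_sub, zero_mul]
    field_simp
  have hB : HasDerivAt (fun t : ℝ => ps u (sg (x, t • w)))
      (fderiv ℝ (ps u) ((-x, -1) : E) (-w, w / x)) 0 := by
    have h1 : HasFDerivAt (ps u) (fderiv ℝ (ps u) ((-x, -1) : E)) (sg (x, (0 : ℝ) • w)) := by
      have h2 : sg ((x, (0 : ℝ) • w) : E) = (-x, -1) := by
        rw [zero_smul]
        unfold sg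
        apply Prod.ext
        · simp only
          field_simp
          ring
        · simp only
          field_simp
          ring
      rw [h2]
      exact ((cd2 (ps_smooth hu (mem3 h8))).differentiableAt (by norm_num)).hasFDerivAt
    have h2 : HasDerivAt (fun t : ℝ => sg (x, t • w)) ((-w, w / x) : E) 0 := hp.prodMk hq
    exact h1.comp_hasDerivAt (0 : ℝ) h2
  have hC : HasDerivAt (fun t : ℝ => Real.log (‖(t • w - x) / x‖ ^ 2)) (-(2 * (w / x).re)) 0 := by
    have h1 := hq.norm_sq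
    have h2 := h1.log (by rw [hq0]; simp)
    refine h2.congr_deriv ?_
    rw [hq0]
    simp [Complex.inner]
  have hev : ∀ᶠ t in 𝓝 (0 : ℝ), t • w - x ≠ 0 ∧ ‖t • w - x‖ < 1 / 8 := by
    have hc : ContinuousAt (fun t : ℝ => t • w - x) 0 := by fun_prop
    refine (hc.eventually_ne (by simpa using hx)).and ?_
    exact hc.norm.eventually_lt_const (by simpa using h8)
  have hD : (fun t : ℝ => ph u (x, t • w)) =ᶠ[𝓝 0]
      fun t : ℝ => ps u (sg (x, t • w)) + Real.log (‖(t • w - x) / x‖ ^ 2) := by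
    filter_upwards [hev] with t ht
    exact rel hu (z := ((x, t • w) : E)) hx h8 ht.1 ht.2
  have h1 := (hB.add hC).congr_of_eventuallyEq hD
  rw [hA.unique h1]
  ring

theorem gg_lim {u : E → ℝ} (hu : Ext u) (hL : StLiou)
    (hpos : ∀ z ∈ W, ∀ v, 0 ≤ lev (fun z' => Phi z' + u z') z v) :
    Tendsto (fun x => x * gg u x) (𝓝[≠] 0) (𝓝 (-1)) := by
  set N : ℂ → (E →L[ℝ] ℝ) := fun x => fderiv ℝ (ps u) ((-x, -1) : E) with hN
  have hNc : ContinuousAt N 0 := by
    have h1 : ContDiffAt ℝ 1 (fderiv ℝ (ps u)) ((-0, -1) : E) :=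
      (cd2 (ps_smooth hu (mem3 (by simp)))).fderiv_right (by norm_num)
    exact ContinuousAt.comp (g := fderiv ℝ (ps u)) (f := fun x : ℂ => ((-x, -1) : E))
      h1.continuousAt (by fun_prop)
  have hN0 : (N 0).comp (ContinuousLinearMap.inr ℝ ℂ ℂ) = 0 := by
    ext w
    simp only [hN, neg_zero]
    exact ps_exc hL hu hpos w
  have hM : Tendsto (fun x => ‖(N x).comp (ContinuousLinearMap.inr ℝ ℂ ℂ)‖) (𝓝 0) (𝓝 0) := by
    have h1 : ContinuousAt (fun x => (N x).comp (ContinuousLinearMap.inr ℝ ℂ ℂ)) 0 :=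
      hNc.clm_comp continuousAt_const
    have h2 := h1.norm.tendsto
    rw [hN0, norm_zero] at h2
    exact h2
  have hM2 : Tendsto (fun x : ℂ => ‖x‖ * ‖N x‖) (𝓝 0) (𝓝 0) := by
    have h1 : Tendsto (fun x : ℂ => ‖x‖) (𝓝 0) (𝓝 0) := by
      simpa using (continuous_norm (E := ℂ)).tendsto 0
    have h2 := h1.mul hNc.norm.tendsto
    simpa using h2
  have hsum := (hM2.add hM).mono_left (nhdsWithin_le_nhds (s := {0}ᶜ))
  rw [add_zero] at hsum
  rw [tendsto_iff_norm_sub_tendsto_zero]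
  refine squeeze_zero' (Eventually.of_forall fun x => norm_nonneg _) ?_ hsum
  have hsmall : ∀ᶠ x in 𝓝[≠] (0 : ℂ), ‖x‖ < 1 / 8 := by
    refine nhdsWithin_le_nhds ?_
    have hc : ContinuousAt (fun x : ℂ => ‖x‖) 0 := by fun_prop
    exact hc.eventually_lt_const (by simp)
  filter_upwards [hsmall, self_mem_nhdsWithin] with x hx8 hx
  have hx0 : x ≠ 0 := hx
  have hnx : 0 < ‖x‖ := norm_pos_iff.2 hx0
  have hb : ∀ w : ℂ, ‖w‖ = 1 → ‖x‖ * |N x (-w, w / x)| ≤
      ‖x‖ * ‖N x‖ + ‖(N x).comp (ContinuousLinearMap.inr ℝ ℂ ℂ)‖ := by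
    intro w hw
    have e : ((-w, w / x) : E) = (-w, 0) + (0, w / x) := by simp
    rw [e, map_add]
    have h1 : |N x (-w, 0)| ≤ ‖N x‖ := by
      have h2 := (N x).le_opNorm ((-w, 0) : E)
      have h3 : ‖((-w, 0) : E)‖ = 1 := by
        rw [Prod.norm_def]
        simp [hw]
      rw [h3, mul_one] at h2
      exact h2
    have h2 : |N x (0, w / x)| ≤ ‖(N x).comp (ContinuousLinearMap.inr ℝ ℂ ℂ)‖ / ‖x‖ := by
      have h3 := ((N x).comp (ContinuousLinearMap.inr ℝ ℂ ℂ)).le_opNorm (w / x)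
      rw [norm_div, hw, mul_one_div] at h3
      exact h3
    calc ‖x‖ * |N x (-w, 0) + N x (0, w / x)| ≤ ‖x‖ * (|N x (-w, 0)| + |N x (0, w / x)|) :=
          mul_le_mul_of_nonneg_left (abs_add_le _ _) hnx.le
      _ ≤ ‖x‖ * (‖N x‖ + ‖(N x).comp (ContinuousLinearMap.inr ℝ ℂ ℂ)‖ / ‖x‖) :=
          mul_le_mul_of_nonneg_left (add_le_add h1 h2) hnx.le
      _ = _ := by field_simp
  have hval : x * gg u x - -1 = x / 2 * (((N x (-1, 1 / x) : ℝ) : ℂ) -
      Complex.I * ((N x (-Complex.I, Complex.I / x) : ℝ) : ℂ)) := by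
    unfold gg
    rw [deriv_rel hu hx0 hx8, deriv_rel hu hx0 hx8]
    have h1 : ((1 / x).re : ℂ) - Complex.I * ((Complex.I / x).re : ℂ) = 1 / x := by
      have h2 : (Complex.I / x).re = -(1 / x).im := by
        have : Complex.I / x = Complex.I * (1 / x) := by ring
        rw [this, Complex.mul_re, Complex.I_re, Complex.I_im]
        ring
      rw [h2]
      push_cast
      rw [mul_neg, sub_neg_eq_add, mul_comm]
      exact Complex.re_add_im (1 / x)
    have h3 : x * (1 / x) = 1 := by field_simp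
    push_cast
    show x * ((((N x (-1, 1 / x) : ℝ) : ℂ) - 2 * ((1 / x).re : ℂ) -
      Complex.I * (((N x (-Complex.I, Complex.I / x) : ℝ) : ℂ) - 2 * ((Complex.I / x).re : ℂ))) / 2)
      - -1 = _
    linear_combination (-x) * h1 - h3
  rw [hval, norm_mul, norm_div, Complex.norm_two]
  have h1 := hb 1 (by simp)
  have h2 := hb Complex.I (by simp)
  have h3 : ‖((N x (-1, 1 / x) : ℝ) : ℂ) - Complex.I * ((N x (-Complex.I, Complex.I / x) : ℝ) : ℂ)‖ ≤
      |N x (-1, 1 / x)| + |N x (-Complex.I, Complex.I / x)| := by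
    refine (norm_sub_le _ _).trans ?_
    rw [norm_mul, Complex.norm_I, one_mul, Complex.norm_real, Complex.norm_real]
    exact le_rfl
  calc ‖x‖ / 2 * ‖((N x (-1, 1 / x) : ℝ) : ℂ) -
        Complex.I * ((N x (-Complex.I, Complex.I / x) : ℝ) : ℂ)‖
      ≤ ‖x‖ / 2 * (|N x (-1, 1 / x)| + |N x (-Complex.I, Complex.I / x)|) :=
        mul_le_mul_of_nonneg_left h3 (by positivity)
    _ ≤ _ := by linarith

/-- there is no semipositive representative -/
theorem t (hL : StLiou) (hR : StRes) : StNot := by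
  classical
  intro u hper hu hpos
  have hoff : ∀ x, x ∉ Lam → (fun x => if x ∈ Lam then 0 else gg u x) =ᶠ[𝓝 x] gg u := by
    intro x hx
    filter_upwards [Lam_closed.isOpen_compl.mem_nhds hx] with t ht
    exact if_neg ht
  refine hR (fun x => if x ∈ Lam then 0 else gg u x) (fun x hx => ?_) ?_ ?_
  · exact (gg_diff hu hper hL hpos hx).congr_of_eventuallyEq (hoff x hx)
  · intro x l hl
    by_cases hx : x ∈ Lam
    · rw [if_pos hx, if_pos (Lam_add hx hl)]
    · rw [if_neg hx, if_neg (fun h => hx ((Lam_add_iff hl).1 h))]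
      exact gg_per hu hper hl hx
  · refine (gg_lim hu hL hpos).congr' ?_
    have hsmall : ∀ᶠ x in 𝓝[≠] (0 : ℂ), ‖x‖ < 1 / 2 := by
      refine nhdsWithin_le_nhds ?_
      have hc : ContinuousAt (fun x : ℂ => ‖x‖) 0 := by fun_prop
      exact hc.eventually_lt_const (by simp)
    filter_upwards [hsmall, self_mem_nhdsWithin] with x hx8 hx
    rw [if_neg (small_notMem hx hx8)]

end Pool.Agent.Y375.SP
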