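import Pool.Agent.Y375.SP.Lat

set_option autoImplicit false

/-!
# Extensions of functions on the dense open set (project SP of helper184)
-/

open Set Topology Filter
open scoped ContDiff

namespace Pool.Agent.Y375.SP

open Pool.Agent.Y184.SP

theorem W_open : IsOpen W := by
  have h : W = (Prod.fst ⁻¹' Lamᶜ) ∩ (Prod.snd ⁻¹' ({0}ᶜ : Set ℂ)) := by
    ext z
    rfl
  rw [h]
  exact (Lam_closed.isOpen_compl.preimage continuous_fst).inter
    (isOpen_compl_singleton.preimage continuous_snd)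

theorem dense_of {A : Set E} (h : ∀ U1 U2 : Set ℂ, IsOpen U1 → U1.Nonempty → IsOpen U2 →
    U2.Nonempty → ∃ a ∈ U1, ∃ b ∈ U2, ((a, b) : E) ∈ A) : Dense A := by
  rw [dense_iff_inter_open]
  rintro U hU ⟨⟨a, b⟩, hab⟩
  rw [isOpen_prod_iff] at hU
  obtain ⟨U1, U2, h1, h2, ha, hb, hsub⟩ := hU a b hab
  obtain ⟨a', ha', b', hb', hA⟩ := h U1 U2 h1 ⟨a, ha⟩ h2 ⟨b, hb⟩
  exact ⟨(a', b'), hsub ⟨ha', hb'⟩, hA⟩

theorem exists_mem_of_countable {U s : Set ℂ} (hU : IsOpen U) (hne : U.Nonempty)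
    (hs : s.Countable) : ∃ a ∈ U, a ∉ s := by
  obtain ⟨a, ha, ha'⟩ := (hs.dense_compl ℝ).inter_open_nonempty U hU hne
  exact ⟨a, ha, ha'⟩

theorem count_mul {b : ℂ} (hb : b ≠ 0) : {a : ℂ | a * b ∈ Lam}.Countable := by
  refine (Lam_countable.image (fun l => l / b)).mono ?_
  intro a ha
  exact ⟨a * b, ha, by field_simp⟩

theorem dense_W : Dense W := by
  refine dense_of fun U1 U2 h1 h1' h2 h2' => ?_
  obtain ⟨a, ha, ha'⟩ := exists_mem_of_countable h1 h1' Lam_countable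
  obtain ⟨b, hb, hb'⟩ := exists_mem_of_countable h2 h2' (Set.countable_singleton (0 : ℂ))
  exact ⟨a, ha, b, hb, ha', hb'⟩

theorem dense0 : Dense {z | tr 0 z ∈ W} := dense_W

theorem dense2 : Dense {z | tr 2 z ∈ W} := by
  refine dense_of fun U1 U2 h1 h1' h2 h2' => ?_
  obtain ⟨a, ha, ha'⟩ := exists_mem_of_countable h1 h1'
    ((Set.countable_singleton (-1 : ℂ)).insert 0)
  simp only [mem_insert_iff, mem_singleton_iff, not_or] at ha'
  obtain ⟨b, hb, hb'⟩ := exists_mem_of_countable h2 h2' (count_mul ha'.1)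
  have hb0 : b ≠ 0 := by
    rintro rfl
    exact hb' (by simp [Lam_zero])
  refine ⟨a, ha, b, hb, ?_, ?_⟩
  · show a * b ∉ Lam
    rw [mul_comm]
    exact hb'
  · show b + a * b ≠ 0
    have : b + a * b = b * (1 + a) := by ring
    rw [this]
    refine mul_ne_zero hb0 ?_
    intro h
    exact ha'.2 (by linear_combination h)

theorem dense3 : Dense {z | tr 3 z ∈ W} := by
  refine dense_of fun U1 U2 h1 h1' h2 h2' => ?_
  obtain ⟨b, hb, hb'⟩ := exists_mem_of_countable h2 h2'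
    ((Set.countable_singleton (-1 : ℂ)).insert 0)
  simp only [mem_insert_iff, mem_singleton_iff, not_or] at hb'
  obtain ⟨a, ha, ha'⟩ := exists_mem_of_countable h1 h1' (count_mul hb'.1)
  have ha0 : a ≠ 0 := by
    rintro rfl
    exact ha' (by simp [Lam_zero])
  refine ⟨a, ha, b, hb, ha', ?_⟩
  show a * b ^ 2 + a * b ≠ 0
  have : a * b ^ 2 + a * b = a * b * (b + 1) := by ring
  rw [this]
  refine mul_ne_zero (mul_ne_zero ha0 hb'.1) ?_
  intro h
  exact hb'.2 (by linear_combination h)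

/-- the extension of `u` in the coordinate system `j` -/
noncomputable def Fx (u : E → ℝ) (j : Fin 5) : E → ℝ :=
  extendFrom {z | tr j z ∈ W} (fun z => u (tr j z))

theorem Fx_local {u : E → ℝ} {j : Fin 5} (hd : Dense {z | tr j z ∈ W}) {z : E}
    (hu : ExtAt u j z) :
    ∃ f : E → ℝ, SmAt f z ∧ Fx u j =ᶠ[𝓝 z] f ∧ ∀ᶠ z' in 𝓝 z, tr j z' ∈ W → f z' = u (tr j z') := by
  obtain ⟨f, hf, hfu⟩ := hu
  refine ⟨f, hf, ?_, hfu⟩
  filter_upwards [hf, eventually_eventually_nhds.2 hfu] with z' h1 h2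
  refine extendFrom_eq (hd z') ?_
  have h3 : Tendsto f (𝓝[{z | tr j z ∈ W}] z') (𝓝 (f z')) :=
    h1.continuousAt.tendsto.mono_left nhdsWithin_le_nhds
  refine h3.congr' ?_
  rw [Filter.EventuallyEq, eventually_nhdsWithin_iff]
  exact h2

theorem Fx_smooth {u : E → ℝ} {j : Fin 5} (hd : Dense {z | tr j z ∈ W}) {z : E}
    (hu : ExtAt u j z) : ContDiffAt ℝ ∞ (Fx u j) z := by
  obtain ⟨f, hf, h, _⟩ := Fx_local hd hu
  exact hf.self_of_nhds.congr_of_eventuallyEq h

theorem Fx_eq {u : E → ℝ} {j : Fin 5} (hd : Dense {z | tr j z ∈ W}) {z : E}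
    (hu : ExtAt u j z) (hz : tr j z ∈ W) : Fx u j z = u (tr j z) := by
  obtain ⟨f, hf, h, h'⟩ := Fx_local hd hu
  rw [h.self_of_nhds]
  exact h'.self_of_nhds hz

theorem Fx_tendsto {u : E → ℝ} {j : Fin 5} (hd : Dense {z | tr j z ∈ W}) {z : E}
    (hu : ExtAt u j z) :
    Tendsto (fun z => u (tr j z)) (𝓝[{z | tr j z ∈ W}] z) (𝓝 (Fx u j z)) := by
  obtain ⟨f, hf, h, h'⟩ := Fx_local hd hu
  rw [h.self_of_nhds]
  have h3 : Tendsto f (𝓝[{z | tr j z ∈ W}] z) (𝓝 (f z)) :=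
    hf.self_of_nhds.continuousAt.tendsto.mono_left nhdsWithin_le_nhds
  refine h3.congr' ?_
  rw [Filter.EventuallyEq, eventually_nhdsWithin_iff]
  exact h'

theorem Fx_comp {u : E → ℝ} {i j : Fin 5} (hdi : Dense {z | tr i z ∈ W})
    (hdj : Dense {z | tr j z ∈ W}) {σ : E → E} {z : E} (hi : ExtAt u i z) (hj : ExtAt u j (σ z))
    (hσ : ContinuousAt σ z)
    (h : ∀ᶠ t in 𝓝 z, tr i t ∈ W → tr j (σ t) ∈ W ∧ u (tr j (σ t)) = u (tr i t)) :
    Fx u i z = Fx u j (σ z) := by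
  have h1 := Fx_tendsto hdi hi
  have h2 := Fx_tendsto hdj hj
  have h3 : Tendsto σ (𝓝[{z | tr i z ∈ W}] z) (𝓝[{z | tr j z ∈ W}] (σ z)) := by
    rw [tendsto_nhdsWithin_iff]
    refine ⟨hσ.tendsto.mono_left nhdsWithin_le_nhds, ?_⟩
    rw [eventually_nhdsWithin_iff]
    filter_upwards [h] with t ht ht'
    exact (ht ht').1
  have h4 := h2.comp h3
  have h5 : (𝓝[{z | tr i z ∈ W}] z).NeBot := mem_closure_iff_nhdsWithin_neBot.1 (hdi z)
  refine tendsto_nhds_unique (h1.congr' ?_) h4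
  rw [Filter.EventuallyEq, eventually_nhdsWithin_iff]
  filter_upwards [h] with t ht ht'
  exact (ht ht').2.symm

/-- bounded subharmonic functions are constant -/
theorem const_of (hL : StLiou) (k : ℂ → ℝ) (hk : ContDiff ℝ 2 k) (hb : ∃ K, ∀ x, |k x| ≤ K)
    (hΔ : ∀ x, 0 ≤ Laplacian.laplacian k x) (x : ℂ) : fderiv ℝ k x = 0 := by
  have h0 := hL k hk hb hΔ
  have hk2 : ContDiff ℝ 2 (fun x => k x ^ 2) := hk.pow 2
  have key : ∀ (x e : ℂ), iteratedFDeriv ℝ 2 (fun x => k x ^ 2) x ![e, e] =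
      2 * (fderiv ℝ k x e) ^ 2 + 2 * k x * iteratedFDeriv ℝ 2 k x ![e, e] := by
    intro x e
    have hline : ∀ t : ℝ, HasDerivAt (fun s : ℝ => x + s • e) e t := by
      intro t
      simpa using ((hasDerivAt_id t).smul_const e).const_add x
    have hd : ∀ t : ℝ, HasDerivAt (fun s : ℝ => k (x + s • e)) (fderiv ℝ k (x + t • e) e) t := by
      intro t
      exact ((hk.differentiable (by norm_num)) _).hasFDerivAt.comp_hasDerivAt t (hline t)
    refine lap_line (ψ := fun t => 2 * k (x + t • e) * fderiv ℝ k (x + t • e) e)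
      hk2.contDiffAt e ?_ ?_
    · refine Eventually.of_forall fun t => ?_
      have := (hd t).fun_pow 2
      simpa using this
    · have hf : DifferentiableAt ℝ (fderiv ℝ k) x :=
        (hk.fderiv_right (m := 1) (by norm_num)).differentiable (by norm_num) x
      have h6 : HasFDerivAt (fderiv ℝ k) (fderiv ℝ (fderiv ℝ k) x) (x + (0 : ℝ) • e) := by
        rw [zero_smul, add_zero]; exact hf.hasFDerivAt
      have h7 : HasDerivAt (fun t : ℝ => fderiv ℝ k (x + t • e)) (fderiv ℝ (fderiv ℝ k) x e) 0 :=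
        h6.comp_hasDerivAt (0 : ℝ) (hline 0)
      have h8 : HasDerivAt (fun t : ℝ => fderiv ℝ k (x + t • e) e)
          (fderiv ℝ (fderiv ℝ k) x e e) 0 := by
        have := (ContinuousLinearMap.apply ℝ ℝ e).hasFDerivAt.comp_hasDerivAt (0 : ℝ) h7
        exact this
      have h9 := ((hd 0).const_mul 2).mul h8
      rw [iteratedFDeriv_two_apply]
      simp only [zero_smul, add_zero] at h9
      simp only [Matrix.cons_val_zero, Matrix.cons_val_one]
      refine h9.congr_deriv ?_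
      ring
  have hΔ2 : ∀ x, Laplacian.laplacian (fun x => k x ^ 2) x =
      2 * ((fderiv ℝ k x 1) ^ 2 + (fderiv ℝ k x Complex.I) ^ 2) := by
    intro x
    have h1 := h0 x
    rw [InnerProductSpace.laplacian_eq_iteratedFDeriv_complexPlane] at h1 ⊢
    simp only at h1 ⊢
    rw [key, key]
    linear_combination 2 * k x * h1
  have h2 := hL (fun x => k x ^ 2) hk2 (by
    obtain ⟨K, hK⟩ := hb
    refine ⟨K ^ 2, fun x => ?_⟩
    rw [abs_pow]
    exact pow_le_pow_left₀ (abs_nonneg _) (hK x) 2) (fun x => by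
    rw [hΔ2]
    positivity) x
  rw [hΔ2] at h2
  have q1 := sq_nonneg (fderiv ℝ k x 1)
  have q2 := sq_nonneg (fderiv ℝ k x Complex.I)
  have h3 : fderiv ℝ k x 1 = 0 := by
    have : (fderiv ℝ k x 1) ^ 2 = 0 := by linarith
    exact pow_eq_zero_iff (two_ne_zero) |>.1 this
  have h4 : fderiv ℝ k x Complex.I = 0 := by
    have : (fderiv ℝ k x Complex.I) ^ 2 = 0 := by linarith
    exact pow_eq_zero_iff (two_ne_zero) |>.1 this
  ext w
  have h5 : w = w.re • (1 : ℂ) + w.im • Complex.I := by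
    rw [Complex.real_smul, Complex.real_smul, mul_one]
    exact (Complex.re_add_im w).symm
  rw [h5, map_add, map_smul, map_smul, h3, h4]
  simp

end Pool.Agent.Y375.SP
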