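import Pool.Agent.Y375.SP.Levi

set_option autoImplicit false

/-!
# The lattice and the smoothness of the potential (project SP of helper184)
-/

open Set Topology Filter
open scoped ContDiff

namespace Pool.Agent.Y375.SP

open Pool.Agent.Y184.SP

theorem Lam_iff (x : ℂ) : x ∈ Lam ↔ (∃ m : ℤ, (m : ℝ) = x.re) ∧ ∃ n : ℤ, (n : ℝ) = x.im := by
  constructor
  · rintro ⟨m, n, rfl⟩
    exact ⟨⟨m, by simp⟩, ⟨n, by simp⟩⟩
  · rintro ⟨⟨m, hm⟩, n, hn⟩
    refine ⟨m, n, ?_⟩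
    apply Complex.ext
    · simp [hm]
    · simp [hn]

theorem Lam_closed : IsClosed Lam := by
  have h : Lam = (Complex.re ⁻¹' Set.range (fun m : ℤ => (m : ℝ))) ∩
      (Complex.im ⁻¹' Set.range (fun m : ℤ => (m : ℝ))) := by
    ext x
    rw [Lam_iff]
    rfl
  rw [h]
  have hc : IsClosed (Set.range (fun m : ℤ => (m : ℝ))) := Int.isClosedEmbedding_coe_real.isClosed_range
  exact (hc.preimage Complex.continuous_re).inter (hc.preimage Complex.continuous_im)

theorem Lam_countable : Lam.Countable := by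
  have h : Lam = Set.range (fun p : ℤ × ℤ => (p.1 : ℂ) + p.2 * Complex.I) := by
    ext x
    constructor
    · rintro ⟨m, n, rfl⟩
      exact ⟨(m, n), rfl⟩
    · rintro ⟨⟨m, n⟩, rfl⟩
      exact ⟨m, n, rfl⟩
  rw [h]
  exact Set.countable_range _

theorem Lam_zero : (0 : ℂ) ∈ Lam := ⟨0, 0, by simp⟩

theorem Lam_add {x y : ℂ} (hx : x ∈ Lam) (hy : y ∈ Lam) : x + y ∈ Lam := by
  obtain ⟨m, n, rfl⟩ := hx
  obtain ⟨m', n', rfl⟩ := hy
  exact ⟨m + m', n + n', by push_cast; ring⟩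

theorem Lam_neg {x : ℂ} (hx : x ∈ Lam) : -x ∈ Lam := by
  obtain ⟨m, n, rfl⟩ := hx
  exact ⟨-m, -n, by push_cast; ring⟩

theorem Lam_add_iff {x l : ℂ} (hl : l ∈ Lam) : x + l ∈ Lam ↔ x ∈ Lam :=
  ⟨fun h => by simpa using Lam_add h (Lam_neg hl), fun h => Lam_add h hl⟩

theorem sub_red (x : ℂ) : x - red x ∈ Lam := ⟨round x.re, round x.im, by unfold red; ring⟩

theorem red_add {x l : ℂ} (hl : l ∈ Lam) : red (x + l) = red x := by
  obtain ⟨m, n, rfl⟩ := hl
  unfold red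
  simp only [Complex.add_re, Complex.intCast_re, Complex.mul_re, Complex.I_re, mul_zero,
    Complex.intCast_im, Complex.I_im, mul_one, sub_self, add_zero, Complex.add_im, Complex.mul_im,
    zero_add, round_add_intCast]
  push_cast
  ring

theorem red_re (x : ℂ) : (red x).re = x.re - round x.re := by
  unfold red
  simp

theorem red_im (x : ℂ) : (red x).im = x.im - round x.im := by
  unfold red
  simp

theorem norm_red_cont : Continuous fun x : ℂ => ‖red x‖ := by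
  have h : (fun x : ℂ => ‖red x‖) = fun x : ℂ =>
      Real.sqrt (‖((x.re : ℝ) : UnitAddCircle)‖ ^ 2 + ‖((x.im : ℝ) : UnitAddCircle)‖ ^ 2) := by
    funext x
    rw [UnitAddCircle.norm_eq, UnitAddCircle.norm_eq, sq_abs, sq_abs, ← red_re, ← red_im,
      Complex.norm_def, Complex.normSq_apply]
    congr 1
    ring
  rw [h]
  have h1 : Continuous (fun x : ℝ => (x : UnitAddCircle)) := AddCircle.continuous_mk' 1
  fun_prop

theorem round_eq_zero {a : ℝ} (h : |a| < 1 / 2) : round a = 0 := by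
  rw [abs_lt] at h
  rw [round_eq, Int.floor_eq_iff]
  constructor
  · push_cast; linarith
  · push_cast; linarith

theorem red_eq_self {x : ℂ} (h : ‖x‖ < 1 / 2) : red x = x := by
  have h1 := Complex.abs_re_le_norm x
  have h2 := Complex.abs_im_le_norm x
  unfold red
  rw [round_eq_zero (by linarith), round_eq_zero (by linarith)]
  simp

theorem red_eq {x l : ℂ} (hl : l ∈ Lam) (h : ‖x - l‖ < 1 / 2) : red x = x - l := by
  rw [← red_eq_self h, sub_eq_add_neg, red_add (Lam_neg hl)]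

theorem red_eq_zero {x : ℂ} : red x = 0 ↔ x ∈ Lam := by
  constructor
  · intro h
    have := sub_red x
    rwa [h, sub_zero] at this
  · intro h
    rw [red_eq h (by simp), sub_self]

theorem red_ne {x : ℂ} (h : x ∉ Lam) : red x ≠ 0 := fun h' => h (red_eq_zero.1 h')

theorem chi_zero {x : ℂ} (h : 1 / 4 ≤ ‖red x‖) : chi x = 0 := by
  unfold chi
  exact bump.zero_of_le_dist (by rw [dist_zero_right]; exact h)

theorem chi_one {x : ℂ} (h : ‖red x‖ ≤ 1 / 8) : chi x = 1 := by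
  unfold chi
  exact bump.one_of_mem_closedBall (by rw [mem_closedBall_zero_iff]; exact h)

/-- the local expression of `Φ` near a lattice point -/
noncomputable def PhiL (l : ℂ) (z : E) : ℝ :=
  3 * Real.log (1 + ‖z.2‖ ^ 2) + bump (z.1 - l) *
    (Real.log ((‖z.2 - (z.1 - l)‖ ^ 2 + ‖z.1 - l‖ ^ 4) / (1 + ‖z.2‖ ^ 2)) -
      Real.log (‖z.1 - l‖ ^ 2))

theorem Phi_eq {l : ℂ} (hl : l ∈ Lam) {z : E} (h : ‖z.1 - l‖ < 1 / 2) : Phi z = PhiL l z := by
  unfold Phi PhiL L2 chi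
  rw [red_eq hl h]

theorem nsq_cd {f : E → ℂ} {z : E} {n : WithTop ℕ∞} (hf : ContDiffAt ℝ n f z) :
    ContDiffAt ℝ n (fun z => ‖f z‖ ^ 2) z := hf.norm_sq ℝ

theorem Phi_smooth {z : E} (hz : z.1 ∉ Lam) : ContDiffAt ℝ ∞ Phi z := by
  have hfst : ContDiffAt ℝ ∞ (fun z : E => z.1) z := contDiffAt_fst
  have hsnd : ContDiffAt ℝ ∞ (fun z : E => z.2) z := contDiffAt_snd
  have h1 : ContDiffAt ℝ ∞ (fun z : E => 1 + ‖z.2‖ ^ 2) z := contDiffAt_const.add (nsq_cd hsnd)
  have h1' : (1 + ‖z.2‖ ^ 2 : ℝ) ≠ 0 := by positivity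
  have h2 : ContDiffAt ℝ ∞ (fun z : E => 3 * Real.log (1 + ‖z.2‖ ^ 2)) z :=
    contDiffAt_const.mul (h1.log h1')
  rcases lt_or_ge ‖red z.1‖ (1 / 2) with h | h
  · have hl := sub_red z.1
    set l := z.1 - red z.1 with hldef
    have hzl : z.1 - l = red z.1 := by rw [hldef]; ring
    have hev : ∀ᶠ z' in 𝓝 z, ‖z'.1 - l‖ < 1 / 2 := by
      have hc : ContinuousAt (fun z' : E => ‖z'.1 - l‖) z := by fun_prop
      exact hc.eventually_lt_const (by simpa only [hzl] using h)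
    have heq : Phi =ᶠ[𝓝 z] PhiL l := hev.mono fun z' hz' => Phi_eq hl hz'
    refine ContDiffAt.congr_of_eventuallyEq ?_ heq
    have hx : ContDiffAt ℝ ∞ (fun z : E => z.1 - l) z := hfst.sub contDiffAt_const
    have hx0 : z.1 - l ≠ 0 := by rw [hzl]; exact red_ne hz
    have hyx : ContDiffAt ℝ ∞ (fun z : E => ‖z.2 - (z.1 - l)‖ ^ 2) z := nsq_cd (hsnd.sub hx)
    have hx4 : ContDiffAt ℝ ∞ (fun z : E => ‖z.1 - l‖ ^ 4) z := by
      have : (fun z : E => ‖z.1 - l‖ ^ 4) = fun z : E => (‖z.1 - l‖ ^ 2) ^ 2 := by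
        funext z; ring
      rw [this]
      exact (nsq_cd hx).pow 2
    have hnx : 0 < ‖z.1 - l‖ := norm_pos_iff.2 hx0
    have hq : ContDiffAt ℝ ∞ (fun z : E => (‖z.2 - (z.1 - l)‖ ^ 2 + ‖z.1 - l‖ ^ 4) /
        (1 + ‖z.2‖ ^ 2)) z := (hyx.add hx4).div h1 h1'
    have hq0 : (‖z.2 - (z.1 - l)‖ ^ 2 + ‖z.1 - l‖ ^ 4) / (1 + ‖z.2‖ ^ 2) ≠ 0 := by positivity
    have hb : ContDiffAt ℝ ∞ (fun z : E => bump (z.1 - l)) z :=
      (bump.contDiff (n := ⊤)).contDiffAt.comp z hx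
    exact h2.add (hb.mul ((hq.log hq0).sub ((nsq_cd hx).log (by positivity))))
  · have hev : ∀ᶠ z' in 𝓝 z, 1 / 4 < ‖red z'.1‖ := by
      have hc : ContinuousAt (fun z' : E => ‖red z'.1‖) z :=
        (norm_red_cont.comp continuous_fst).continuousAt
      exact hc.eventually_const_lt (by linarith)
    have heq : Phi =ᶠ[𝓝 z] fun z : E => 3 * Real.log (1 + ‖z.2‖ ^ 2) := by
      filter_upwards [hev] with z' hz'
      unfold Phi
      rw [chi_zero hz'.le]
      ring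
    exact h2.congr_of_eventuallyEq heq

theorem Phi_per {l : ℂ} (hl : l ∈ Lam) (z : E) : Phi (z + (l, 0)) = Phi z := by
  unfold Phi L2 chi
  simp only [Prod.fst_add, Prod.snd_add, add_zero]
  rw [red_add hl]

end Pool.Agent.Y375.SP
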