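import Pool.Agent.Y184.SP.Base

set_option autoImplicit false

/-!
# Levi forms of functions on `ℂ × ℂ` (project SP of helper184)
-/

open Set Topology Filter
open scoped ContDiff

namespace Pool.Agent.Y375.SP

open Pool.Agent.Y184.SP

/-- second derivative along a line -/
theorem lap_line {L : ℂ → ℝ} {x : ℂ} (hL : ContDiffAt ℝ 2 L x) (e : ℂ) {ψ : ℝ → ℝ} {c : ℝ}
    (h1 : ∀ᶠ t in 𝓝 (0 : ℝ), HasDerivAt (fun s : ℝ => L (x + s • e)) (ψ t) t)
    (h2 : HasDerivAt ψ c 0) : iteratedFDeriv ℝ 2 L x ![e, e] = c := by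
  rw [iteratedFDeriv_two_apply]
  simp only [Matrix.cons_val_zero, Matrix.cons_val_one]
  have hdiff : ∀ᶠ ζ in 𝓝 x, DifferentiableAt ℝ L ζ := by
    have h := hL.eventually (by simp)
    filter_upwards [h] with ζ hζ
    exact hζ.differentiableAt (by norm_num)
  have hf : DifferentiableAt ℝ (fderiv ℝ L) x := by
    have : ContDiffAt ℝ 1 (fderiv ℝ L) x := hL.fderiv_right (by norm_num)
    exact this.differentiableAt (by norm_num)
  have hline : ∀ t : ℝ, HasDerivAt (fun s : ℝ => x + s • e) e t := by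
    intro t
    simpa using ((hasDerivAt_id t).smul_const e).const_add x
  have ht0 : Tendsto (fun s : ℝ => x + s • e) (𝓝 0) (𝓝 x) := by
    have := (hline 0).continuousAt.tendsto
    simpa using this
  have h3 : ψ =ᶠ[𝓝 0] fun t => fderiv ℝ L (x + t • e) e := by
    filter_upwards [h1, ht0.eventually hdiff] with t ht htd
    have h4 : HasDerivAt (fun s : ℝ => L (x + s • e)) (fderiv ℝ L (x + t • e) e) t :=
      htd.hasFDerivAt.comp_hasDerivAt t (hline t)
    exact ht.unique h4
  have h5 : HasDerivAt (fun t : ℝ => fderiv ℝ L (x + t • e) e) (fderiv ℝ (fderiv ℝ L) x e e) 0 := by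
    have h6 : HasFDerivAt (fderiv ℝ L) (fderiv ℝ (fderiv ℝ L) x) (x + (0 : ℝ) • e) := by
      rw [zero_smul, add_zero]; exact hf.hasFDerivAt
    have h7 : HasDerivAt (fun t : ℝ => fderiv ℝ L (x + t • e)) (fderiv ℝ (fderiv ℝ L) x e) 0 :=
      h6.comp_hasDerivAt (0 : ℝ) (hline 0)
    have h8 := (ContinuousLinearMap.apply ℝ ℝ e).hasFDerivAt.comp_hasDerivAt (0 : ℝ) h7
    exact h8
  exact ((h2.congr_of_eventuallyEq h3.symm).unique h5).symm

/-- the Levi form in terms of the second derivative -/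
noncomputable def S (ρ : E → ℝ) (z v w : E) : ℝ :=
  fderiv ℝ (fderiv ℝ ρ) z v w + fderiv ℝ (fderiv ℝ ρ) z (Complex.I • v) (Complex.I • w)

theorem lap_curve {φ : E → ℝ} {c : ℂ → E} {x : ℂ} (hc : AnalyticAt ℂ c x)
    (hφ : ContDiffAt ℝ 2 φ (c x)) :
    Laplacian.laplacian (fun ζ => φ (c ζ)) x = S φ (c x) (deriv c x) (deriv c x) := by
  have hcR : ContDiffAt ℝ 2 c x := (hc.contDiffAt (n := 2)).restrict_scalars ℝ
  have hL : ContDiffAt ℝ 2 (fun ζ => φ (c ζ)) x := hφ.comp x hcR
  have key : ∀ e : ℂ, iteratedFDeriv ℝ 2 (fun ζ => φ (c ζ)) x ![e, e] =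
      fderiv ℝ (fderiv ℝ φ) (c x) (e • deriv c x) (e • deriv c x) +
        fderiv ℝ φ (c x) (e • e • deriv (deriv c) x) := by
    intro e
    have hline : ∀ t : ℝ, HasDerivAt (fun s : ℝ => x + s • e) e t := by
      intro t
      simpa using ((hasDerivAt_id t).smul_const e).const_add x
    have ht0 : Tendsto (fun s : ℝ => x + s • e) (𝓝 0) (𝓝 x) := by
      have := (hline 0).continuousAt.tendsto
      simpa using this
    have hcd : ∀ᶠ t in 𝓝 (0 : ℝ), HasDerivAt (fun s : ℝ => c (x + s • e))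
        (e • deriv c (x + t • e)) t := by
      filter_upwards [ht0.eventually hc.eventually_analyticAt] with t ht
      exact ht.differentiableAt.hasDerivAt.scomp t (hline t)
    have hφd : ∀ᶠ t in 𝓝 (0 : ℝ), DifferentiableAt ℝ φ (c (x + t • e)) := by
      have h1 : ∀ᶠ z in 𝓝 (c x), DifferentiableAt ℝ φ z := by
        filter_upwards [hφ.eventually (by simp)] with z hz
        exact hz.differentiableAt (by norm_num)
      exact (hc.continuousAt.tendsto.comp ht0).eventually h1
    refine lap_line (ψ := fun t => fderiv ℝ φ (c (x + t • e)) (e • deriv c (x + t • e))) hL e ?_ ?_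
    · filter_upwards [hcd, hφd] with t h1 h2
      exact h2.hasFDerivAt.comp_hasDerivAt t h1
    · have hf : DifferentiableAt ℝ (fderiv ℝ φ) (c x) := by
        have : ContDiffAt ℝ 1 (fderiv ℝ φ) (c x) := hφ.fderiv_right (by norm_num)
        exact this.differentiableAt (by norm_num)
      have h0 : HasDerivAt (fun s : ℝ => c (x + s • e)) (e • deriv c x) 0 := by
        have := hcd.self_of_nhds
        simpa using this
      have h6 : HasFDerivAt (fderiv ℝ φ) (fderiv ℝ (fderiv ℝ φ) (c x)) (c (x + (0 : ℝ) • e)) := by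
        rw [zero_smul, add_zero]; exact hf.hasFDerivAt
      have h7 : HasDerivAt (fun t : ℝ => fderiv ℝ φ (c (x + t • e)))
          (fderiv ℝ (fderiv ℝ φ) (c x) (e • deriv c x)) 0 := h6.comp_hasDerivAt (0 : ℝ) h0
      have h8 : HasDerivAt (fun t : ℝ => deriv c (x + t • e)) (e • deriv (deriv c) x) 0 := by
        have h9 : AnalyticAt ℂ (deriv c) (x + (0 : ℝ) • e) := by
          rw [zero_smul, add_zero]; exact hc.deriv
        have := h9.differentiableAt.hasDerivAt.scomp (0 : ℝ) (hline 0)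
        simp only [zero_smul, add_zero] at this
        exact this
      have h10 := h7.clm_apply (h8.const_smul e)
      simpa using h10
  rw [InnerProductSpace.laplacian_eq_iteratedFDeriv_complexPlane]
  simp only
  rw [key 1, key Complex.I, S]
  have h1 : Complex.I • Complex.I • deriv (deriv c) x = - deriv (deriv c) x := by
    rw [smul_smul, Complex.I_mul_I, neg_one_smul]
  rw [h1]
  simp only [one_smul, map_neg]
  ring

theorem lev_eq {ρ : E → ℝ} {z : E} (hρ : ContDiffAt ℝ 2 ρ z) (v : E) : lev ρ z v = S ρ z v v := by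
  unfold lev
  have hd : ∀ ζ : ℂ, HasDerivAt (fun ζ : ℂ => z + ζ • v) v ζ := by
    intro ζ
    simpa using ((hasDerivAt_id ζ).smul_const v).const_add z
  have hc : AnalyticAt ℂ (fun ζ : ℂ => z + ζ • v) 0 := by fun_prop
  rw [lap_curve hc (by simpa using hρ), (hd 0).deriv]
  simp

/-- continuity of the Levi form -/
theorem S_continuousAt {ρ : E → ℝ} {z : E} (hρ : ContDiffAt ℝ 2 ρ z) (v w : E) :
    ContinuousAt (fun z => S ρ z v w) z := by
  have h1 : ContDiffAt ℝ 0 (fderiv ℝ (fderiv ℝ ρ)) z :=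
    (hρ.fderiv_right (m := 1) (by norm_num)).fderiv_right (m := 0) (by norm_num)
  have h2 : ContinuousAt (fderiv ℝ (fderiv ℝ ρ)) z := h1.continuousAt
  unfold S
  have h3 : ∀ a b : E, ContinuousAt (fun z => fderiv ℝ (fderiv ℝ ρ) z a b) z := fun a b =>
    (h2.clm_apply continuousAt_const).clm_apply continuousAt_const
  exact (h3 _ _).add (h3 _ _)

theorem S_symm {ρ : E → ℝ} {z : E} (hρ : ContDiffAt ℝ 2 ρ z) (v w : E) : S ρ z v w = S ρ z w v := by
  have h : IsSymmSndFDerivAt ℝ ρ z := hρ.isSymmSndFDerivAt (by simp)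
  unfold S
  rw [h v w, h (Complex.I • v) (Complex.I • w)]

/-- nonnegative by continuity -/
theorem S_nonneg {ρ : E → ℝ} {z : E} (hρ : ContDiffAt ℝ 2 ρ z) (v : E) {A : Set E}
    (hz : z ∈ closure A) (h : ∀ᶠ z' in 𝓝 z, z' ∈ A → 0 ≤ S ρ z' v v) : 0 ≤ S ρ z v v := by
  have h1 : (𝓝[A] z).NeBot := mem_closure_iff_nhdsWithin_neBot.1 hz
  have h2 := (S_continuousAt hρ v v).tendsto.mono_left (nhdsWithin_le_nhds (s := A))
  refine ge_of_tendsto h2 ?_
  rw [eventually_nhdsWithin_iff]
  exact h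

/-- the mixed terms vanish -/
theorem S_mixed {ρ : E → ℝ} {z : E} (hρ : ContDiffAt ℝ 2 ρ z) {e : E}
    (h0 : S ρ z e e = 0) (h : ∀ v, 0 ≤ S ρ z v v) (w : E) : S ρ z e w = 0 := by
  have hexp : ∀ t : ℝ, S ρ z (w + t • e) (w + t • e) = S ρ z w w + 2 * t * S ρ z e w := by
    intro t
    have h1 : S ρ z (w + t • e) (w + t • e) = S ρ z w w + t * S ρ z e w + t * S ρ z w e +
        t * t * S ρ z e e := by
      unfold S
      have h2 : Complex.I • (w + t • e) = Complex.I • w + t • (Complex.I • e) := by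
        rw [smul_add, smul_comm]
      rw [h2]
      simp only [map_add, map_smul, add_apply, smul_apply,
        smul_eq_mul]
      ring
    rw [h1, h0, S_symm hρ w e]
    ring
  by_contra hne
  have h2 := h (w + (-(S ρ z w w + 1) / (2 * S ρ z e w)) • e)
  rw [hexp] at h2
  have h3 : 2 * (-(S ρ z w w + 1) / (2 * S ρ z e w)) * S ρ z e w = -(S ρ z w w + 1) := by
    field_simp
  rw [h3] at h2
  linarith

end Pool.Agent.Y375.SP
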