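import Pool.Agent.Y375.SP.Rel

set_option autoImplicit false

/-!
# There is no semipositive representative (project SP of helper184)
-/

open Set Topology Filter
open scoped ContDiff

namespace Pool.Agent.Y375.SP

open Pool.Agent.Y184.SP

/-- the derivative along the exceptional curve -/
theorem ps_exc (hL : StLiou) {u : E → ℝ} (hu : Ext u)
    (hpos : ∀ z ∈ W, ∀ v, 0 ≤ lev (fun z' => Phi z' + u z') z v) (w : ℂ) :
    fderiv ℝ (ps u) ((0, -1) : E) (0, w) = 0 := by
  set k : ℂ → ℝ := fun η => ps u (0, η) with hk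
  have hV : ∀ η : ℂ, ((0, η) : E) ∈ V 3 := fun η => by rw [V3_mem]; simp
  have hline : ContDiff ℝ 2 (fun η : ℂ => ((0, η) : E)) := contDiff_const.prodMk contDiff_id
  have hks : ContDiff ℝ 2 k := by
    rw [contDiff_iff_contDiffAt]
    intro η
    exact ContDiffAt.comp η (g := ps u) (f := fun η : ℂ => ((0, η) : E))
      (cd2 (ps_smooth hu (hV η))) hline.contDiffAt
  have hder : ∀ η : ℂ, HasDerivAt (fun η : ℂ => ((0, η) : E)) (0, 1) η := fun η =>
    (hasDerivAt_const η (0 : ℂ)).prodMk (hasDerivAt_id η)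
  have hΔ : ∀ η, 0 ≤ Laplacian.laplacian k η := by
    intro η
    have hc : AnalyticAt ℂ (fun η : ℂ => ((0, η) : E)) η := by fun_prop
    have h1 := lap_curve (φ := ps u) hc (cd2 (ps_smooth hu (hV η)))
    rw [(hder η).deriv] at h1
    show 0 ≤ Laplacian.laplacian (fun η : ℂ => ps u (0, η)) η
    rw [h1]
    exact ps_pos hu hpos (hV η) _
  have hb : ∃ K, ∀ η, |k η| ≤ K := by
    have hkc : Continuous k := hks.continuous
    obtain ⟨K1, hK1⟩ :=
      (isCompact_closedBall (0 : ℂ) 1).exists_bound_of_continuousOn hkc.continuousOn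
    have hV2 : ∀ ζ : ℂ, ((ζ, 0) : E) ∈ V 2 := by
      intro ζ
      show ‖ζ * 0‖ < 1 / 8 ∧ ‖(0 : ℂ)‖ < 1 / 8
      simp
    have hk2 : Continuous (fun ζ : ℂ => Fx u 2 (ζ, 0)) := by
      rw [continuous_iff_continuousAt]
      intro ζ
      exact ContinuousAt.comp (g := Fx u 2) (f := fun ζ : ℂ => ((ζ, 0) : E))
        (Fx_smooth dense2 (hu 2 _ (hV2 ζ))).continuousAt (by fun_prop)
    obtain ⟨K2, hK2⟩ :=
      (isCompact_closedBall (0 : ℂ) 1).exists_bound_of_continuousOn hk2.continuousOn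
    refine ⟨max K1 K2, fun η => ?_⟩
    rcases le_or_gt ‖η‖ 1 with h | h
    · exact (hK1 η (mem_closedBall_zero_iff.2 h)).trans (le_max_left _ _)
    · have hη : η ≠ 0 := by
        rintro rfl
        simp at h
        linarith
      have e1 : k η = Fx u 2 (1 / η, 0) := by
        have e2 : Th ((0, η) : E) = 0 := by unfold Th; simp
        show Fx u 3 (0, η) + Th (0, η) = _
        rw [e2, add_zero]
        have hcont : ContinuousAt (fun t : E => ((1 / t.2, t.1 * t.2 ^ 2) : E)) (0, η) := by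
          have h1 : ContinuousAt (fun t : E => t.2) (0, η) := continuous_snd.continuousAt
          have h2 : ContinuousAt (fun t : E => t.1 * t.2 ^ 2) (0, η) := by fun_prop
          exact (continuousAt_const.div h1 hη).prodMk h2
        have h3 := Fx_comp (u := u) dense3 dense2
          (σ := fun t : E => ((1 / t.2, t.1 * t.2 ^ 2) : E)) (z := ((0, η) : E))
          (hu 3 _ (hV η)) (by simpa using hu 2 _ (hV2 (1 / η))) hcont (by
          refine Eventually.of_forall fun t ht => ?_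
          have ht1 : t.1 * t.2 ∉ Lam := ht.1
          have k2 : t.2 ≠ 0 := by
            intro h
            rw [h, mul_zero] at ht1
            exact ht1 Lam_zero
          have h4 : tr 2 ((1 / t.2, t.1 * t.2 ^ 2) : E) = tr 3 t := by
            show ((1 / t.2 * (t.1 * t.2 ^ 2), t.1 * t.2 ^ 2 + 1 / t.2 * (t.1 * t.2 ^ 2)) : E) =
              (t.1 * t.2, t.1 * t.2 ^ 2 + t.1 * t.2)
            have : 1 / t.2 * (t.1 * t.2 ^ 2) = t.1 * t.2 := by field_simp
            rw [this]
          rw [h4]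
          exact ⟨ht, rfl⟩)
        simpa using h3
      rw [e1]
      refine (hK2 _ ?_).trans (le_max_right _ _)
      rw [mem_closedBall_zero_iff, norm_div, norm_one]
      exact (div_le_one (by linarith)).2 h.le
  have h1 := const_of hL k hks hb hΔ (-1)
  have h2 : HasFDerivAt (ps u) (fderiv ℝ (ps u) ((0, -1) : E)) ((0, -1) : E) :=
    ((cd2 (ps_smooth hu (hV (-1)))).differentiableAt (by norm_num)).hasFDerivAt
  have h3 : HasFDerivAt (fun η : ℂ => ((0, η) : E)) (ContinuousLinearMap.inr ℝ ℂ ℂ) (-1) :=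
    (hasFDerivAt_const (0 : ℂ) (-1 : ℂ)).prodMk (hasFDerivAt_id (-1 : ℂ))
  have h4 : HasFDerivAt k ((fderiv ℝ (ps u) ((0, -1) : E)).comp (ContinuousLinearMap.inr ℝ ℂ ℂ))
    (-1) := HasFDerivAt.comp (g := ps u) (-1 : ℂ) h2 h3
  have h5 := h4.fderiv
  rw [h1] at h5
  have h6 := congrArg (fun L : ℂ →L[ℝ] ℝ => L w) h5
  simpa using h6.symm

/-- the function on the curve `y = 0` -/
noncomputable def vv (u : E → ℝ) (x : ℂ) : ℝ :=
  open Classical in if x ∈ Lam then ps u (0, -1) else ph u (x, 0)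

theorem vv_near {u : E → ℝ} (hu : Ext u) {x : ℂ} (h : ‖x‖ < 1 / 8) :
    vv u x = ps u (-x, -1) := by
  unfold vv
  by_cases hx : x = 0
  · subst hx
    rw [if_pos Lam_zero, neg_zero]
  · rw [if_neg (small_notMem hx (by linarith))]
    have h1 := rel hu (z := ((x, 0) : E)) hx h (by simpa using hx) (by simpa using h)
    have h2 : sg ((x, 0) : E) = (-x, -1) := by
      unfold sg
      apply Prod.ext
      · simp only
        field_simp
        ring
      · simp only
        field_simp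
        ring
    have h3 : ((0 : ℂ) - x) / x = -1 := by
      field_simp
      ring
    rw [h1, h2]
    simp only [h3]
    simp

theorem ph_per {u : E → ℝ} (hu : Ext u) (hper : Per u) {l : ℂ} (hl : l ∈ Lam) {z : E}
    (hz : z.1 ∉ Lam) : ph u (z + (l, 0)) = ph u z := by
  unfold ph
  rw [Phi_per hl]
  congr 1
  symm
  have hz' : (z + (l, 0)).1 ∉ Lam := fun h => hz ((Lam_add_iff hl).1 h)
  refine Fx_comp dense0 dense0 (σ := fun t => t + (l, 0)) (ext0 hu hz) (ext0 hu hz')
    (by fun_prop) ?_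
  refine Eventually.of_forall fun t ht => ?_
  have ht1 : t ∈ W := ht
  refine ⟨?_, ?_⟩
  · show t + (l, 0) ∈ W
    refine ⟨fun h => ht1.1 ((Lam_add_iff hl).1 h), ?_⟩
    show t.2 + 0 ≠ 0
    rw [add_zero]
    exact ht1.2
  · show u (t + (l, 0)) = u t
    have := hper t.1 t.2 l hl
    have e : t + ((l, 0) : E) = (t.1 + l, t.2) := by
      apply Prod.ext
      · rfl
      · show t.2 + 0 = t.2
        rw [add_zero]
    rw [e]
    exact this

theorem vv_per {u : E → ℝ} (hu : Ext u) (hper : Per u) {l : ℂ} (hl : l ∈ Lam) (x : ℂ) :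
    vv u (x + l) = vv u x := by
  unfold vv
  by_cases hx : x ∈ Lam
  · rw [if_pos hx, if_pos (Lam_add hx hl)]
  · rw [if_neg hx, if_neg (fun h => hx ((Lam_add_iff hl).1 h))]
    have := ph_per hu hper hl (z := ((x, 0) : E)) hx
    have e : ((x, 0) : E) + (l, 0) = (x + l, 0) := by simp
    rwa [e] at this

theorem vv_off {u : E → ℝ} {x : ℂ} (hx : x ∉ Lam) : vv u =ᶠ[𝓝 x] fun x => ph u (x, 0) := by
  filter_upwards [Lam_closed.isOpen_compl.mem_nhds hx] with t ht
  unfold vv
  rw [if_neg ht]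

theorem vv_on {u : E → ℝ} (hu : Ext u) (hper : Per u) {x : ℂ} (hx : x ∈ Lam) :
    vv u =ᶠ[𝓝 x] fun t => ps u (-(t - x), -1) := by
  have h1 : ∀ᶠ t in 𝓝 x, ‖t - x‖ < 1 / 8 := by
    have hc : ContinuousAt (fun t : ℂ => ‖t - x‖) x := by fun_prop
    exact hc.eventually_lt_const (by simp)
  filter_upwards [h1] with t ht
  rw [← vv_near hu ht]
  have := vv_per hu hper hx (t - x)
  rwa [sub_add_cancel] at this

theorem mem3 {x : ℂ} (h : ‖x‖ < 1 / 8) : ((-x, -1) : E) ∈ V 3 := by
  rw [V3_mem]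
  simpa using h

theorem vv_smooth {u : E → ℝ} (hu : Ext u) (hper : Per u) : ContDiff ℝ 2 (vv u) := by
  rw [contDiff_iff_contDiffAt]
  intro x
  by_cases hx : x ∈ Lam
  · refine ContDiffAt.congr_of_eventuallyEq ?_ (vv_on hu hper hx)
    refine ContDiffAt.comp x (g := ps u) (f := fun t : ℂ => ((-(t - x), -1) : E)) ?_ (by fun_prop)
    exact cd2 (ps_smooth hu (mem3 (by simp)))
  · refine ContDiffAt.congr_of_eventuallyEq ?_ (vv_off hx)
    exact ContDiffAt.comp x (g := ph u) (f := fun t : ℂ => ((t, 0) : E))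
      (cd2 (ph_smooth hu hx)) (by fun_prop)

theorem vv_lap_off {u : E → ℝ} (hu : Ext u) {x : ℂ} (hx : x ∉ Lam) :
    Laplacian.laplacian (vv u) x = S (ph u) (x, 0) (1, 0) (1, 0) := by
  rw [(InnerProductSpace.laplacian_congr_nhds (vv_off hx)).self_of_nhds]
  have hc : AnalyticAt ℂ (fun t : ℂ => ((t, 0) : E)) x := by fun_prop
  have hder : HasDerivAt (fun t : ℂ => ((t, 0) : E)) (1, 0) x :=
    (hasDerivAt_id x).prodMk (hasDerivAt_const x (0 : ℂ))
  rw [lap_curve (φ := ph u) hc (cd2 (ph_smooth hu hx)), hder.deriv]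

theorem vv_lap {u : E → ℝ} (hu : Ext u) (hper : Per u)
    (hpos : ∀ z ∈ W, ∀ v, 0 ≤ lev (fun z' => Phi z' + u z') z v) (x : ℂ) :
    0 ≤ Laplacian.laplacian (vv u) x := by
  by_cases hx : x ∈ Lam
  · rw [(InnerProductSpace.laplacian_congr_nhds (vv_on hu hper hx)).self_of_nhds]
    have hc : AnalyticAt ℂ (fun t : ℂ => ((-(t - x), -1) : E)) x := by fun_prop
    have hm : ((-(x - x), -1) : E) ∈ V 3 := mem3 (by simp)
    rw [lap_curve (φ := ps u) hc (cd2 (ps_smooth hu hm))]
    exact ps_pos hu hpos hm _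
  · rw [vv_lap_off hu hx]
    exact ph_pos hu hpos hx _

theorem vv_bdd {u : E → ℝ} (hu : Ext u) (hper : Per u) : ∃ K, ∀ x, |vv u x| ≤ K := by
  obtain ⟨K, hK⟩ := (isCompact_closedBall (0 : ℂ) 1).exists_bound_of_continuousOn
    (vv_smooth hu hper).continuous.continuousOn
  refine ⟨K, fun x => ?_⟩
  have h1 : vv u x = vv u (red x) := by
    have := vv_per hu hper (sub_red x) (red x)
    rwa [add_sub_cancel] at this
  rw [h1]
  refine hK _ (mem_closedBall_zero_iff.2 ?_)
  refine (Complex.norm_le_abs_re_add_abs_im _).trans ?_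
  rw [red_re, red_im]
  have h2 := abs_sub_round x.re
  have h3 := abs_sub_round x.im
  linarith

end Pool.Agent.Y375.SP
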