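import Pool.Agent.Y375.SP.Ex

set_option autoImplicit false

/-!
# The extended potential in the coordinate systems 0 and 3 (project SP of helper184)
-/

open Set Topology Filter
open scoped ContDiff

namespace Pool.Agent.Y375.SP

open Pool.Agent.Y184.SP

/-- the smooth part of `Φ` in the third coordinate system -/
noncomputable def Th (z : E) : ℝ :=
  2 * Real.log (1 + ‖z.1 * z.2 ^ 2 + z.1 * z.2‖ ^ 2) + Real.log (1 + ‖z.1‖ ^ 2)

theorem Th_smooth (z : E) : ContDiffAt ℝ ∞ Th z := by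
  have hfst : ContDiffAt ℝ ∞ (fun z : E => z.1) z := contDiffAt_fst
  have hsnd : ContDiffAt ℝ ∞ (fun z : E => z.2) z := contDiffAt_snd
  have h1 : ContDiffAt ℝ ∞ (fun z : E => 1 + ‖z.1 * z.2 ^ 2 + z.1 * z.2‖ ^ 2) z :=
    contDiffAt_const.add (nsq_cd ((hfst.mul (hsnd.pow 2)).add (hfst.mul hsnd)))
  have h2 : ContDiffAt ℝ ∞ (fun z : E => 1 + ‖z.1‖ ^ 2) z :=
    contDiffAt_const.add (nsq_cd hfst)
  exact (contDiffAt_const.mul (h1.log (by positivity))).add (h2.log (by positivity))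

/-- from the coordinates `(x, y)` to the third coordinate system -/
noncomputable def sg (z : E) : E := (z.1 ^ 2 / (z.2 - z.1), (z.2 - z.1) / z.1)

theorem Phi3 {z : E} (hx : z.1 ≠ 0) (hx8 : ‖z.1‖ < 1 / 8) (hy : z.2 - z.1 ≠ 0) :
    Phi z = Th (sg z) + Real.log (‖(z.2 - z.1) / z.1‖ ^ 2) := by
  have hr : red z.1 = z.1 := red_eq_self (by linarith)
  have hc : chi z.1 = 1 := chi_one (by rw [hr]; exact hx8.le)
  unfold Phi L2 Th
  rw [hr, hc]
  have e1 : (sg z).1 * (sg z).2 ^ 2 + (sg z).1 * (sg z).2 = z.2 := by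
    unfold sg
    simp only
    field_simp
    ring
  rw [e1]
  have hX : 0 < ‖z.1‖ := norm_pos_iff.2 hx
  have hY : 0 < ‖z.2 - z.1‖ := norm_pos_iff.2 hy
  have hS : 0 < ‖(z.2 - z.1) / z.1‖ := by
    rw [norm_div]
    positivity
  have e2 : ‖z.2 - z.1‖ ^ 2 + ‖z.1‖ ^ 4 =
      ‖z.1‖ ^ 2 * ‖(z.2 - z.1) / z.1‖ ^ 2 * (1 + ‖(sg z).1‖ ^ 2) := by
    unfold sg
    simp only
    rw [norm_div, norm_div, norm_pow]
    field_simp
  have hp1 : (0 : ℝ) < 1 + ‖z.2‖ ^ 2 := by positivity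
  have hp2 : (0 : ℝ) < 1 + ‖(sg z).1‖ ^ 2 := by positivity
  rw [e2, Real.log_div (by positivity) hp1.ne', Real.log_mul (by positivity) hp2.ne',
    Real.log_mul (by positivity) (by positivity)]
  ring

theorem ext0 {u : E → ℝ} (hu : Ext u) {z : E} (hz : z.1 ∉ Lam) : ExtAt u 0 z := hu 0 z (Or.inl hz)

theorem V3_mem {z : E} : z ∈ V 3 ↔ ‖z.1 * z.2‖ < 1 / 8 ∧ ‖z.1 * z.2 ^ 2‖ < 1 / 8 := Iff.rfl

theorem V3_open : IsOpen (V 3) := by
  have h1 : IsOpen {z : E | ‖z.1 * z.2‖ < 1 / 8} :=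
    isOpen_lt (by fun_prop) continuous_const
  have h2 : IsOpen {z : E | ‖z.1 * z.2 ^ 2‖ < 1 / 8} :=
    isOpen_lt (by fun_prop) continuous_const
  exact h1.inter h2

theorem tr3_cont : Continuous (tr 3) := by
  show Continuous fun z : E => (z.1 * z.2, z.1 * z.2 ^ 2 + z.1 * z.2)
  fun_prop

/-- the extended function in the coordinates `(x, y)` -/
noncomputable def ph (u : E → ℝ) (z : E) : ℝ := Phi z + Fx u 0 z

/-- the extended function in the third coordinate system, up to `log ‖η‖²` -/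
noncomputable def ps (u : E → ℝ) (z : E) : ℝ := Fx u 3 z + Th z

theorem ph_smooth {u : E → ℝ} (hu : Ext u) {z : E} (hz : z.1 ∉ Lam) : ContDiffAt ℝ ∞ (ph u) z :=
  (Phi_smooth hz).add (Fx_smooth dense0 (ext0 hu hz))

theorem ps_smooth {u : E → ℝ} (hu : Ext u) {z : E} (hz : z ∈ V 3) : ContDiffAt ℝ ∞ (ps u) z :=
  (Fx_smooth dense3 (hu 3 z hz)).add (Th_smooth z)

theorem cd2 {f : E → ℝ} {z : E} (h : ContDiffAt ℝ ∞ f z) : ContDiffAt ℝ 2 f z :=
  h.of_le (WithTop.coe_le_coe.2 le_top : ((2 : ℕ∞) : WithTop ℕ∞) ≤ ∞)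

theorem small_notMem {x : ℂ} (hx : x ≠ 0) (h : ‖x‖ < 1 / 2) : x ∉ Lam := by
  intro h'
  apply hx
  rw [← red_eq_self h]
  exact red_eq_zero.2 h'

/-- the relation of the two functions -/
theorem rel {u : E → ℝ} (hu : Ext u) {z : E} (hx : z.1 ≠ 0) (hx8 : ‖z.1‖ < 1 / 8)
    (hy : z.2 - z.1 ≠ 0) (hy8 : ‖z.2 - z.1‖ < 1 / 8) :
    ph u z = ps u (sg z) + Real.log (‖(z.2 - z.1) / z.1‖ ^ 2) := by
  unfold ph ps
  rw [Phi3 hx hx8 hy]
  have e1 : (sg z).1 * (sg z).2 = z.1 := by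
    unfold sg
    simp only
    field_simp
  have e2 : (sg z).1 * (sg z).2 ^ 2 = z.2 - z.1 := by
    unfold sg
    simp only
    field_simp
  have hV : sg z ∈ V 3 := by
    rw [V3_mem, e1, e2]
    exact ⟨hx8, hy8⟩
  have hcont : ContinuousAt sg z := by
    unfold sg
    have h1 : ContinuousAt (fun z : E => z.1) z := continuous_fst.continuousAt
    have h2 : ContinuousAt (fun z : E => z.2 - z.1) z := by fun_prop
    exact ((h1.pow 2).div h2 hy).prodMk (h2.div h1 hx)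
  have hev : ∀ᶠ t in 𝓝 z, t.1 ≠ 0 ∧ t.2 - t.1 ≠ 0 := by
    have h1 : ContinuousAt (fun z : E => z.1) z := continuous_fst.continuousAt
    have h2 : ContinuousAt (fun z : E => z.2 - z.1) z := by fun_prop
    exact (h1.eventually_ne hx).and (h2.eventually_ne hy)
  have hF : Fx u 0 z = Fx u 3 (sg z) := by
    refine Fx_comp dense0 dense3 (ext0 hu (small_notMem hx (by linarith))) (hu 3 _ hV) hcont ?_
    filter_upwards [hev] with t ht hW
    have h3 : tr 3 (sg t) = t := by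
      have hx' := ht.1
      have hy' := ht.2
      show ((sg t).1 * (sg t).2, (sg t).1 * (sg t).2 ^ 2 + (sg t).1 * (sg t).2) = t
      apply Prod.ext
      · unfold sg
        simp only
        field_simp
      · unfold sg
        simp only
        field_simp
        ring
    have h4 : tr 0 t = t := rfl
    rw [h3]
    rw [h4] at hW ⊢
    exact ⟨hW, rfl⟩
  rw [hF]
  ring

theorem sg_tr3 {z : E} (h1 : z.1 ≠ 0) (h2 : z.2 ≠ 0) : sg (tr 3 z) = z := by
  show sg (z.1 * z.2, z.1 * z.2 ^ 2 + z.1 * z.2) = z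
  unfold sg
  simp only [add_sub_cancel_right]
  apply Prod.ext
  · simp only
    field_simp
  · simp only
    field_simp

/-- positivity in the coordinates `(x, y)` -/
theorem ph_pos {u : E → ℝ} (hu : Ext u)
    (hpos : ∀ z ∈ W, ∀ v, 0 ≤ lev (fun z' => Phi z' + u z') z v) {z : E} (hz : z.1 ∉ Lam) (v : E) :
    0 ≤ S (ph u) z v v := by
  refine S_nonneg (cd2 (ph_smooth hu hz)) v (dense_W z) ?_
  refine Eventually.of_forall fun z' hz' => ?_
  have heq : (fun z' => Phi z' + u z') =ᶠ[𝓝 z'] ph u := by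
    filter_upwards [W_open.mem_nhds hz'] with t ht
    unfold ph
    rw [Fx_eq dense0 (ext0 hu ht.1) ht]
    rfl
  have h1 := hpos z' hz' v
  have h2 : ContDiffAt ℝ 2 (fun z' => Phi z' + u z') z' :=
    (cd2 (ph_smooth hu hz'.1)).congr_of_eventuallyEq heq
  rw [lev_eq h2] at h1
  unfold S at h1 ⊢
  rw [heq.fderiv.fderiv_eq] at h1
  exact h1

/-- positivity in the third coordinate system -/
theorem ps_pos {u : E → ℝ} (hu : Ext u)
    (hpos : ∀ z ∈ W, ∀ v, 0 ≤ lev (fun z' => Phi z' + u z') z v) {z : E} (hz : z ∈ V 3) (v : E) :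
    0 ≤ S (ps u) z v v := by
  refine S_nonneg (cd2 (ps_smooth hu hz)) v (dense3 z) ?_
  filter_upwards [V3_open.mem_nhds hz] with z' hz' hW
  have hW1 : z'.1 * z'.2 ∉ Lam := hW.1
  have h1 : z'.1 ≠ 0 := by
    intro h
    rw [h, zero_mul] at hW1
    exact hW1 Lam_zero
  have h2 : z'.2 ≠ 0 := by
    intro h
    rw [h, mul_zero] at hW1
    exact hW1 Lam_zero
  have hev : ∀ᶠ t in 𝓝 z', ph u (tr 3 t) = ps u t + 2 * Real.log ‖t.2‖ := by
    filter_upwards [V3_open.mem_nhds hz', (W_open.preimage tr3_cont).mem_nhds hW] with t ht htW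
    have htW1 : t.1 * t.2 ∉ Lam := htW.1
    have k1 : t.1 ≠ 0 := by
      intro h
      rw [h, zero_mul] at htW1
      exact htW1 Lam_zero
    have k2 : t.2 ≠ 0 := by
      intro h
      rw [h, mul_zero] at htW1
      exact htW1 Lam_zero
    have e1 : (tr 3 t).1 = t.1 * t.2 := rfl
    have e2 : (tr 3 t).2 - (tr 3 t).1 = t.1 * t.2 ^ 2 := by
      show t.1 * t.2 ^ 2 + t.1 * t.2 - t.1 * t.2 = t.1 * t.2 ^ 2
      ring
    have e3 := Phi3 (z := tr 3 t) (by rw [e1]; exact mul_ne_zero k1 k2) (by rw [e1]; exact ht.1)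
      (by rw [e2]; exact mul_ne_zero k1 (pow_ne_zero 2 k2))
    rw [sg_tr3 k1 k2, e2, e1] at e3
    have e4 : t.1 * t.2 ^ 2 / (t.1 * t.2) = t.2 := by field_simp
    rw [e4] at e3
    unfold ph ps
    rw [e3, Fx_eq dense0 (ext0 hu htW.1) htW, Fx_eq dense3 (hu 3 t ht) htW]
    have e5 : tr 0 (tr 3 t) = tr 3 t := rfl
    rw [e5, Real.log_pow]
    push_cast
    ring
  have hc : AnalyticAt ℂ (fun ζ : ℂ => tr 3 (z' + ζ • v)) 0 := by
    show AnalyticAt ℂ (fun ζ : ℂ => (((z'.1 + ζ * v.1) * (z'.2 + ζ * v.2),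
      (z'.1 + ζ * v.1) * (z'.2 + ζ * v.2) ^ 2 + (z'.1 + ζ * v.1) * (z'.2 + ζ * v.2)) : E)) 0
    fun_prop
  have h0 : tr 3 (z' + (0 : ℂ) • v) = tr 3 z' := by simp
  have h3 := lap_curve (φ := ph u) hc (by rw [h0]; exact cd2 (ph_smooth hu hW.1))
  have h4 : 0 ≤ Laplacian.laplacian (fun ζ : ℂ => ph u (tr 3 (z' + ζ • v))) 0 := by
    rw [h3, h0]
    exact ph_pos hu hpos hW.1 _
  have hline : Tendsto (fun ζ : ℂ => z' + ζ • v) (𝓝 0) (𝓝 z') := by
    have : Continuous (fun ζ : ℂ => z' + ζ • v) := by fun_prop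
    simpa using this.tendsto 0
  have h5 : (fun ζ : ℂ => ph u (tr 3 (z' + ζ • v))) =ᶠ[𝓝 0]
      (fun ζ : ℂ => ps u (z' + ζ • v)) + (fun ζ : ℂ => (2 : ℝ) • Real.log ‖z'.2 + ζ * v.2‖) := by
    filter_upwards [hline.eventually hev] with ζ hζ
    rw [hζ]
    rfl
  have hharm : InnerProductSpace.HarmonicAt (fun ζ : ℂ => Real.log ‖z'.2 + ζ * v.2‖) 0 := by
    refine AnalyticAt.harmonicAt_log_norm (f := fun ζ : ℂ => z'.2 + ζ * v.2) (by fun_prop) ?_
    simpa using h2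
  have hps : ContDiffAt ℝ 2 (fun ζ : ℂ => ps u (z' + ζ • v)) 0 := by
    have hl : ContDiffAt ℝ 2 (fun ζ : ℂ => z' + ζ • v) 0 := by fun_prop
    refine ContDiffAt.comp (0 : ℂ) (g := ps u) ?_ hl
    simpa using cd2 (ps_smooth hu hz')
  have hs : Laplacian.laplacian (fun ζ : ℂ => (2 : ℝ) • Real.log ‖z'.2 + ζ * v.2‖) 0 = 0 := by
    have h6 := InnerProductSpace.laplacian_smul (2 : ℝ) hharm.1
    rw [hharm.2.self_of_nhds] at h6
    refine Eq.trans h6 ?_
    simp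
  rw [(InnerProductSpace.laplacian_congr_nhds h5).self_of_nhds,
    ContDiffAt.laplacian_add hps (hharm.1.const_smul (2 : ℝ)), hs] at h4
  rw [← lev_eq (cd2 (ps_smooth hu hz'))]
  unfold lev
  simpa using h4

end Pool.Agent.Y375.SP
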